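import Pool.Agent.MP_eae0ed_lc.Defs

set_option autoImplicit false
set_option linter.unusedVariables false

namespace Pool.Agent.LIO

/-! ### Composition of bounded `Δ₀` functions -/

lemma F0.map1 {F : ℕ → ℕ} (hFg : D (fun v : Fin 2 → ℕ => v 1 = F (v 0)))
    {B : (Fin 1 → ℕ) → ℕ} (hB : TT B) (hFB : ∀ x, F x ≤ B ![x])
    {n : ℕ} {f : (Fin n → ℕ) → ℕ} (hf : F0 f) : F0 (fun v => F (f v)) := by
  have hg := hf
  obtain ⟨⟨b, hb, hb'⟩, hD⟩ := hf
  refine ⟨⟨fun v => B (fun i => b v), TT.comp hB (fun _ => hb), fun v => ?_⟩, ?_⟩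
  · refine (hFB _).trans (hB.exists_mono ?_)
    intro i
    fin_cases i
    exact hb' v
  · refine D.bind (P := fun (z : ℕ) (v : Fin (n + 1) → ℕ) => v (Fin.last n) = F z) hg.weaken ?_
    exact (D.comp hFg (f := fun (i : Fin 2) (v : Fin (n + 1 + 1) → ℕ) =>
      if i = 0 then v (Fin.last _) else v (Fin.last n).castSucc)
      (fun i => by fin_cases i <;> simpa using TT.var _)).congr (fun v => by simp)

lemma F0.map2 {F : ℕ → ℕ → ℕ} (hFg : D (fun v : Fin 3 → ℕ => v 2 = F (v 0) (v 1)))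
    {B : (Fin 2 → ℕ) → ℕ} (hB : TT B) (hFB : ∀ x y, F x y ≤ B ![x, y])
    {n : ℕ} {f g : (Fin n → ℕ) → ℕ} (hf : F0 f) (hg : F0 g) :
    F0 (fun v => F (f v) (g v)) := by
  have hf1 := hf
  have hg1 := hg
  obtain ⟨⟨b, hb, hb'⟩, hD⟩ := hf
  obtain ⟨⟨c, hc, hc'⟩, hE⟩ := hg
  refine ⟨⟨fun v => B (fun i => if i = 0 then b v else c v), TT.comp hB (fun i => by
    fin_cases i
    · simpa using hb
    · simpa using hc), fun v => ?_⟩, ?_⟩
  · refine (hFB _ _).trans (hB.exists_mono ?_)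
    intro i
    fin_cases i
    · simpa using hb' v
    · simpa using hc' v
  · refine D.bind (P := fun (z : ℕ) (v : Fin (n + 1) → ℕ) =>
      v (Fin.last n) = F z (g (fun i => v i.castSucc))) hf1.weaken ?_
    refine D.bind (P := fun (z : ℕ) (v : Fin (n + 1 + 1) → ℕ) =>
      v (Fin.last n).castSucc = F (v (Fin.last (n + 1))) z) hg1.weaken.weaken ?_
    exact (D.comp hFg (f := fun (i : Fin 3) (v : Fin (n + 1 + 1 + 1) → ℕ) =>
      if i = 0 then v (Fin.last _).castSucc else if i = 1 then v (Fin.last _)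
        else v (Fin.last n).castSucc.castSucc)
      (fun i => by fin_cases i <;> simpa using TT.var _)).congr (fun v => by simp)

lemma F0.add {n : ℕ} {f g : (Fin n → ℕ) → ℕ} (hf : F0 f) (hg : F0 g) :
    F0 (fun v => f v + g v) :=
  F0.map2 (F := fun x y => x + y) (D.eqT (TT.var _) (TT.add (TT.var _) (TT.var _)))
    (B := fun v => v 0 + v 1) (TT.add (TT.var _) (TT.var _)) (fun _ _ => le_rfl) hf hg

lemma F0.mul {n : ℕ} {f g : (Fin n → ℕ) → ℕ} (hf : F0 f) (hg : F0 g) :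
    F0 (fun v => f v * g v) :=
  F0.map2 (F := fun x y => x * y) (D.eqT (TT.var _) (TT.mul (TT.var _) (TT.var _)))
    (B := fun v => v 0 * v 1) (TT.mul (TT.var _) (TT.var _)) (fun _ _ => le_rfl) hf hg

lemma F0.pow {n : ℕ} {f : (Fin n → ℕ) → ℕ} (hf : F0 f) (k : ℕ) : F0 (fun v => f v ^ k) := by
  induction k with
  | zero => simpa using F0.const (n := n) 1
  | succ k ih =>
    simp only [pow_succ]
    exact F0.mul ih hf

lemma F0.sub {n : ℕ} {f g : (Fin n → ℕ) → ℕ} (hf : F0 f) (hg : F0 g) :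
    F0 (fun v => f v - g v) := by
  refine F0.map2 (F := fun x y => x - y) ?_
    (B := fun v => v 0) (TT.var _) (fun x y => Nat.sub_le _ _) hf hg
  refine (D.or (D.and (D.le (F0.var 0) (F0.var 1)) (D.eq (F0.var 2) (F0.const 0)))
    (D.eq (F0.var 0) (F0.add (F0.var 1) (F0.var 2)))).congr (fun v => ?_)
  omega

lemma F0.mod {n : ℕ} {f g : (Fin n → ℕ) → ℕ} (hf : F0 f) (hg : F0 g) :
    F0 (fun v => f v % g v) := by
  refine F0.map2 (F := fun x y => x % y) ?_
    (B := fun v => v 0) (TT.var _) (fun x y => Nat.mod_le _ _) hf hg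
  refine (D.or (D.and (D.eq (F0.var 1) (F0.const 0)) (D.eq (F0.var 2) (F0.var 0)))
    (D.and (D.lt (F0.var 2) (F0.var 1)) (D.bexLe (P := fun z v => v 0 = v 1 * z + v 2) (F0.var 0)
      (D.eq (F0.var _) (F0.add (F0.mul (F0.var _) (F0.var _)) (F0.var _)))))).congr (fun v => ?_)
  constructor
  · rintro (⟨h1, h2⟩ | ⟨h1, z, _, h2⟩)
    · rw [h2, h1, Nat.mod_zero]
    · rw [h2, Nat.mul_add_mod, Nat.mod_eq_of_lt h1]
  · intro h
    rcases Nat.eq_zero_or_pos (v 1) with h0 | h0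
    · left
      refine ⟨h0, ?_⟩
      rw [h, h0, Nat.mod_zero]
    · right
      refine ⟨h ▸ Nat.mod_lt _ h0, v 0 / v 1, Nat.div_le_self _ _, ?_⟩
      rw [h, Nat.div_add_mod]

lemma F0.div {n : ℕ} {f g : (Fin n → ℕ) → ℕ} (hf : F0 f) (hg : F0 g) :
    F0 (fun v => f v / g v) := by
  refine F0.map2 (F := fun x y => x / y) ?_
    (B := fun v => v 0) (TT.var _) (fun x y => Nat.div_le_self _ _) hf hg
  refine (D.or (D.and (D.eq (F0.var 1) (F0.const 0)) (D.eq (F0.var 2) (F0.const 0)))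
    (D.and (D.le (F0.mul (F0.var 1) (F0.var 2)) (F0.var 0))
      (D.lt (F0.var 0) (F0.mul (F0.var 1) (F0.add (F0.var 2) (F0.const 1)))))).congr (fun v => ?_)
  constructor
  · rintro (⟨h1, h2⟩ | ⟨h1, h2⟩)
    · rw [h2, h1, Nat.div_zero]
    · symm
      apply Nat.div_eq_of_lt_le
      · rwa [mul_comm]
      · rwa [mul_comm]
  · intro h
    rcases Nat.eq_zero_or_pos (v 1) with h0 | h0
    · left
      refine ⟨h0, ?_⟩
      rw [h, h0, Nat.div_zero]
    · right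
      rw [h]
      exact ⟨Nat.mul_div_le _ _, Nat.lt_mul_div_succ _ h0⟩

lemma F0.pair {n : ℕ} {f g : (Fin n → ℕ) → ℕ} (hf : F0 f) (hg : F0 g) :
    F0 (fun v => Nat.pair (f v) (g v)) := by
  refine F0.map2 (F := fun x y => Nat.pair x y) ?_
    (B := fun v => (v 0 + v 1 + 1) ^ 2) (TT.pow (TT.add (TT.add (TT.var _) (TT.var _)) TT.one) 2)
      (fun x y => ?_) hf hg
  · refine (D.or (D.and (D.lt (F0.var 0) (F0.var 1))
      (D.eq (F0.var 2) (F0.add (F0.mul (F0.var 1) (F0.var 1)) (F0.var 0))))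
      (D.and (D.le (F0.var 1) (F0.var 0)) (D.eq (F0.var 2) (F0.add (F0.add
        (F0.mul (F0.var 0) (F0.var 0)) (F0.var 0)) (F0.var 1))))).congr (fun v => ?_)
    unfold Nat.pair
    split_ifs with h
    · constructor
      · rintro (⟨_, h2⟩ | ⟨h1, _⟩)
        · exact h2
        · omega
      · intro h2
        exact Or.inl ⟨h, h2⟩
    · constructor
      · rintro (⟨h1, _⟩ | ⟨_, h2⟩)
        · omega
        · exact h2
      · intro h2
        exact Or.inr ⟨by omega, h2⟩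
  · show Nat.pair x y ≤ (x + y + 1) ^ 2
    unfold Nat.pair
    split_ifs <;> nlinarith

lemma F0.fst {n : ℕ} {f : (Fin n → ℕ) → ℕ} (hf : F0 f) :
    F0 (fun v => (Nat.unpair (f v)).1) := by
  refine F0.map1 (F := fun x => (Nat.unpair x).1) ?_ (B := fun v => v 0) (TT.var _)
    (fun x => Nat.unpair_left_le x) hf
  refine (D.bexLe (P := fun z v => v 0 = Nat.pair (v 1) z) (F0.var 0)
    (D.eq (F0.var _) (F0.pair (F0.var _) (F0.var _)))).congr (fun v => ?_)
  constructor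
  · rintro ⟨z, _, h⟩
    rw [h, Nat.unpair_pair]
  · intro h
    exact ⟨(Nat.unpair (v 0)).2, Nat.unpair_right_le _, by rw [h, Nat.pair_unpair]⟩

lemma F0.snd {n : ℕ} {f : (Fin n → ℕ) → ℕ} (hf : F0 f) :
    F0 (fun v => (Nat.unpair (f v)).2) := by
  refine F0.map1 (F := fun x => (Nat.unpair x).2) ?_ (B := fun v => v 0) (TT.var _)
    (fun x => Nat.unpair_right_le x) hf
  refine (D.bexLe (P := fun z v => v 0 = Nat.pair z (v 1)) (F0.var 0)
    (D.eq (F0.var _) (F0.pair (F0.var _) (F0.var _)))).congr (fun v => ?_)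
  constructor
  · rintro ⟨z, _, h⟩
    rw [h, Nat.unpair_pair]
  · intro h
    exact ⟨(Nat.unpair (v 0)).1, Nat.unpair_left_le _, by rw [h, Nat.pair_unpair]⟩

lemma F0.beta {n : ℕ} {f g : (Fin n → ℕ) → ℕ} (hf : F0 f) (hg : F0 g) :
    F0 (fun v => Nat.beta (f v) (g v)) := by
  unfold Nat.beta
  exact F0.mod hf.fst (F0.add (F0.mul (F0.add hg (F0.const 1)) hf.snd) (F0.const 1))

lemma D.dvd {n : ℕ} {f g : (Fin n → ℕ) → ℕ} (hf : F0 f) (hg : F0 g) :
    D (fun v => f v ∣ g v) := by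
  refine (D.bexLe (P := fun z v => g v = f v * z) hg
    (D.eq hg.weaken (F0.mul hf.weaken (F0.var _)))).congr (fun v => ?_)
  constructor
  · rintro ⟨z, _, h⟩
    exact ⟨z, h⟩
  · rintro ⟨z, h⟩
    rcases Nat.eq_zero_or_pos (f v) with h0 | h0
    · refine ⟨0, Nat.zero_le _, ?_⟩
      rw [h, h0]; simp
    · exact ⟨z, by rw [h]; exact Nat.le_mul_of_pos_left _ h0, h⟩

/-! ### The function `lcm(1, ..., Z)` and its iterates -/

/-- least common multiple of `1, ..., Z` -/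
def Lc (Z : ℕ) : ℕ := (Finset.Icc 1 Z).lcm id

lemma Lc_pos (Z : ℕ) : 0 < Lc Z := by
  unfold Lc
  refine Nat.pos_of_ne_zero ?_
  rw [Ne, Finset.lcm_eq_zero_iff]
  simp

lemma dvd_Lc {i Z : ℕ} (h1 : 1 ≤ i) (h2 : i ≤ Z) : i ∣ Lc Z :=
  Finset.dvd_lcm (f := id) (by simp [h1, h2])

lemma Lc_dvd {Z m : ℕ} (h : ∀ i, 1 ≤ i → i ≤ Z → i ∣ m) : Lc Z ∣ m :=
  Finset.lcm_dvd (fun i hi => by
    simp only [Finset.mem_Icc] at hi
    exact h i hi.1 hi.2)

lemma eq_Lc_iff (Z u : ℕ) : u = Lc Z ↔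
    (0 < u ∧ (∀ i < Z, (i + 1) ∣ u) ∧ ∀ w < u, 0 < w → ∃ i < Z, ¬ (i + 1) ∣ w) := by
  constructor
  · rintro rfl
    refine ⟨Lc_pos Z, fun i hi => dvd_Lc (by omega) (by omega), fun w hw hw0 => ?_⟩
    by_contra hcon
    push Not at hcon
    have : Lc Z ∣ w := Lc_dvd (fun i h1 h2 => by
      have := hcon (i - 1) (by omega)
      rwa [Nat.sub_add_cancel h1] at this)
    exact absurd (Nat.le_of_dvd hw0 this) (by omega)
  · rintro ⟨h0, h1, h2⟩
    have hd : Lc Z ∣ u := Lc_dvd (fun i h1' h2' => by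
      have := h1 (i - 1) (by omega)
      rwa [Nat.sub_add_cancel h1'] at this)
    have hle := Nat.le_of_dvd h0 hd
    rcases lt_or_eq_of_le hle with h | h
    · obtain ⟨i, hi, hn⟩ := h2 _ h (Lc_pos Z)
      exact absurd (dvd_Lc (by omega) (by omega)) hn
    · exact h.symm

lemma D.eqLc {n : ℕ} {f g : (Fin n → ℕ) → ℕ} (hf : F0 f) (hg : F0 g) :
    D (fun v => g v = Lc (f v)) := by
  refine (D.and (D.lt (F0.const 0) hg) (D.and
    (D.ball (P := fun i v => (i + 1) ∣ g v) hf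
      (D.dvd (F0.add (F0.var _) (F0.const 1)) hg.weaken))
    (D.ball (P := fun w v => 0 < w → ∃ i < f v, ¬ (i + 1) ∣ w) hg
      (D.imp (D.lt (F0.const 0) (F0.var _))
        (D.bex (P := fun i (v : Fin (n + 1) → ℕ) => ¬ (i + 1) ∣ v (Fin.last n)) hf.weaken
          (D.not (D.dvd (F0.add (F0.var _) (F0.const 1)) (F0.var _)))))))).congr (fun v => ?_)
  rw [eq_Lc_iff]

/-- iterates of `Lc` -/
def B : ℕ → ℕ → ℕ
  | 0, Z => Z
  | k + 1, Z => Lc (B k Z)

lemma le_Lc (Z : ℕ) : Z ≤ Lc Z := by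
  rcases Nat.eq_zero_or_pos Z with h | h
  · omega
  · exact Nat.le_of_dvd (Lc_pos Z) (dvd_Lc h le_rfl)

lemma Lc_mono : Monotone Lc := by
  intro a b h
  exact Nat.le_of_dvd (Lc_pos b) (Lc_dvd (fun i h1 h2 => dvd_Lc h1 (h2.trans h)))

lemma le_B (k Z : ℕ) : Z ≤ B k Z := by
  induction k with
  | zero => exact le_rfl
  | succ k ih => exact ih.trans (le_Lc _)

lemma B_mono (k : ℕ) : Monotone (B k) := by
  induction k with
  | zero => exact monotone_id
  | succ k ih => exact fun a b h => Lc_mono (ih h)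

lemma B_le_succ (k Z : ℕ) : B k Z ≤ B (k + 1) Z := le_Lc _

lemma B_mono_left {k l : ℕ} (h : k ≤ l) (Z : ℕ) : B k Z ≤ B l Z := by
  induction l, h using Nat.le_induction with
  | base => exact le_rfl
  | succ l _ ih => exact ih.trans (B_le_succ _ _)

lemma D.eqB (k : ℕ) : ∀ {n : ℕ} {f g : (Fin n → ℕ) → ℕ} (hf : F0 f) (hg : F0 g),
    D (fun v => g v = B k (f v)) := by
  induction k with
  | zero =>
    intro n f g hf hg
    exact D.eq hg hf
  | succ k ih =>
    intro n f g hf hg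
    refine (D.bexLe (P := fun z v => z = B k (f v) ∧ g v = Lc z) hg
      (D.and (ih hf.weaken (F0.var _)) (D.eqLc (F0.var _) hg.weaken))).congr (fun v => ?_)
    constructor
    · rintro ⟨z, _, h1, h2⟩
      rw [h2, h1]; rfl
    · intro h
      exact ⟨B k (f v), by rw [h]; exact B_le_succ _ _, rfl, h⟩

end Pool.Agent.LIO
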