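import Pool.Agent.MP_eae0ed_lc.Closure

set_option autoImplicit false
set_option linter.unusedVariables false

namespace Pool.Agent.LIO

open Finset

/-! ### Size of `Lc` -/

lemma centralBinom_dvd_Lc (k : ℕ) (hk : 0 < k) : Nat.centralBinom k ∣ Lc (2 * k) := by
  rw [← Nat.factorization_prime_le_iff_dvd (Nat.centralBinom_ne_zero k) (Lc_pos _).ne']
  intro p hp
  rw [← hp.pow_dvd_iff_le_factorization (Lc_pos _).ne']
  apply dvd_Lc
  · exact Nat.one_le_iff_ne_zero.2 (pow_ne_zero _ hp.ne_zero)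
  · rw [Nat.centralBinom]
    exact Nat.pow_factorization_choose_le (by omega)

lemma two_mul_le_two_pow (k : ℕ) : 2 * k ≤ 2 ^ k := by
  rcases k with _ | k
  · simp
  · have : k < 2 ^ k := Nat.lt_two_pow_self
    rw [pow_succ]
    omega

lemma two_pow_le_centralBinom (k : ℕ) : 2 ^ k ≤ Nat.centralBinom k := by
  rcases Nat.eq_zero_or_pos k with rfl | hk
  · simp
  · have h1 := Nat.four_pow_le_two_mul_self_mul_centralBinom k hk
    have h2 := two_mul_le_two_pow k
    have h3 : (4 : ℕ) ^ k = 2 ^ k * 2 ^ k := by rw [← mul_pow]; norm_num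
    rw [h3] at h1
    have h4 : 2 ^ k * 2 ^ k ≤ 2 ^ k * Nat.centralBinom k :=
      h1.trans (Nat.mul_le_mul_right _ h2)
    exact Nat.le_of_mul_le_mul_left h4 (by positivity)

lemma two_pow_le_Lc (k : ℕ) : 2 ^ k ≤ Lc (2 * k) := by
  rcases Nat.eq_zero_or_pos k with rfl | hk
  · exact Lc_pos 0
  · exact (two_pow_le_centralBinom k).trans
      (Nat.le_of_dvd (Lc_pos _) (centralBinom_dvd_Lc k hk))

lemma two_pow_le_Lc' {k Z : ℕ} (h : 2 * k ≤ Z) : 2 ^ k ≤ Lc Z :=
  (two_pow_le_Lc k).trans (Lc_mono h)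

lemma Lc_le_pow (Z : ℕ) : Lc Z ≤ Z ^ Z := by
  have h : Lc Z ∣ Nat.factorial Z := Lc_dvd (fun i h1 h2 => Nat.dvd_factorial h1 h2)
  exact (Nat.le_of_dvd (Nat.factorial_pos _) h).trans (Nat.factorial_le_pow Z)

lemma Lc_le_two_pow (Z : ℕ) : Lc Z ≤ 2 ^ (Z * Z) := by
  refine (Lc_le_pow Z).trans ?_
  rw [pow_mul]
  exact Nat.pow_le_pow_left (Nat.lt_two_pow_self).le _

/-! ### Coding finite sets by divisibility -/

/-- membership of `x` in the set coded by `c` with step `d` -/
def bit (c d x : ℕ) : Prop := ((x + 1) * d + 1) ∣ c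

/-- code of the finite set `h` with step `d` -/
def code (d : ℕ) (h : Finset ℕ) : ℕ := ∏ x ∈ h, ((x + 1) * d + 1)

lemma code_pos (d : ℕ) (h : Finset ℕ) : 0 < code d h :=
  Finset.prod_pos (fun _ _ => Nat.succ_pos _)

lemma coprime_steps {d X x y : ℕ} (hd : ∀ i, 1 ≤ i → i ≤ X → i ∣ d) (hx : x < X) (hy : y < X)
    (hxy : x ≠ y) : Nat.Coprime ((x + 1) * d + 1) ((y + 1) * d + 1) := by
  rcases lt_or_gt_of_ne hxy with h | h
  · exact Nat.coprime_mul_succ (hd _ (by omega) (by omega))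
  · exact (Nat.coprime_mul_succ (hd _ (by omega) (by omega))).symm

lemma bit_code {d X x : ℕ} {h : Finset ℕ} (hd : ∀ i, 1 ≤ i → i ≤ X → i ∣ d) (hd0 : 0 < d)
    (hh : h ⊆ range X) (hx : x < X) : bit (code d h) d x ↔ x ∈ h := by
  constructor
  · intro hb
    by_contra hxh
    have : Nat.Coprime ((x + 1) * d + 1) (code d h) := by
      unfold code
      refine Nat.Coprime.prod_right (fun y hy => ?_)
      exact coprime_steps hd hx (mem_range.1 (hh hy)) (fun e => hxh (e ▸ hy))
    have h1 : (x + 1) * d + 1 = 1 := Nat.Coprime.eq_one_of_dvd this hb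
    have : 0 < (x + 1) * d := by positivity
    omega
  · intro hxh
    exact Finset.dvd_prod_of_mem (fun x => (x + 1) * d + 1) hxh

lemma code_dvd {d X c : ℕ} {h : Finset ℕ} (hd : ∀ i, 1 ≤ i → i ≤ X → i ∣ d)
    (hh : h ⊆ range X) (hc : ∀ x ∈ h, bit c d x) : code d h ∣ c := by
  unfold code
  refine Finset.prod_dvd_of_isRelPrime ?_ hc
  intro x hx y hy hxy
  exact Nat.coprime_iff_isRelPrime.1
    (coprime_steps hd (mem_range.1 (hh hx)) (mem_range.1 (hh hy)) hxy)

/-- the least positive code of the set coded by `c` -/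
lemma canonical_iff {d X c : ℕ} (hd : ∀ i, 1 ≤ i → i ≤ X → i ∣ d) (hd0 : 0 < d) (h : Finset ℕ)
    (hh : h ⊆ range X) :
    (0 < c ∧ (∀ x < X, (bit c d x ↔ x ∈ h)) ∧
      (∀ c' < c, 0 < c' → ∃ x < X, ¬ (bit c' d x ↔ bit c d x))) ↔ c = code d h := by
  constructor
  · rintro ⟨h0, h1, h2⟩
    have hdv : code d h ∣ c := code_dvd hd hh (fun x hx => (h1 x (mem_range.1 (hh hx))).2 hx)
    have hle := Nat.le_of_dvd h0 hdv
    rcases lt_or_eq_of_le hle with hlt | heq
    · obtain ⟨x, hx, hn⟩ := h2 _ hlt (code_pos d h)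
      exact absurd ((bit_code hd hd0 hh hx).trans (h1 x hx).symm) hn
    · exact heq.symm
  · rintro rfl
    refine ⟨code_pos d h, fun x hx => bit_code hd hd0 hh hx, fun c' hc' h0 => ?_⟩
    by_contra hcon
    push Not at hcon
    have : code d h ∣ c' := code_dvd hd hh (fun x hx => by
      have hxX := mem_range.1 (hh hx)
      exact (hcon x hxX).2 ((bit_code hd hd0 hh hxX).2 hx))
    exact absurd (Nat.le_of_dvd h0 this) (by omega)

lemma code_le {d X : ℕ} {h : Finset ℕ} (hh : h ⊆ range X) : code d h ≤ (X * d + 1) ^ X := by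
  calc code d h ≤ ∏ x ∈ h, (X * d + 1) := by
        refine Finset.prod_le_prod' (fun x hx => ?_)
        have := mem_range.1 (hh hx)
        have : (x + 1) * d ≤ X * d := Nat.mul_le_mul_right _ this
        omega
    _ = (X * d + 1) ^ h.card := by rw [Finset.prod_const]
    _ ≤ (X * d + 1) ^ X := by
        refine Nat.pow_le_pow_right (by omega) ?_
        simpa using Finset.card_le_card hh

lemma code_inj {d X : ℕ} {h h' : Finset ℕ} (hd : ∀ i, 1 ≤ i → i ≤ X → i ∣ d) (hd0 : 0 < d)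
    (hh : h ⊆ range X) (hh' : h' ⊆ range X) (e : code d h = code d h') : h = h' := by
  ext x
  constructor
  · intro hx
    have hxX := mem_range.1 (hh hx)
    rw [← bit_code hd hd0 hh' hxX, ← e, bit_code hd hd0 hh hxX]
    exact hx
  · intro hx
    have hxX := mem_range.1 (hh' hx)
    rw [← bit_code hd hd0 hh hxX, e, bit_code hd hd0 hh' hxX]
    exact hx

/-! ### Hashing -/

lemma exists_hash {M N : ℕ} (S : Finset ℕ) (hS : ∀ c ∈ S, c ≤ 2 ^ M) (c0 : ℕ) (hc0 : c0 ∈ S)
    (hN : 2 ^ (M * S.card) < Lc N) :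
    ∃ p, 1 ≤ p ∧ p ≤ N ∧ ∀ c ∈ S, c % p = c0 % p → c = c0 := by
  by_contra hcon
  push Not at hcon
  set Dd : ℕ := ∏ c ∈ S.erase c0, ((c - c0) + (c0 - c)) with hDd
  have hpos : 0 < Dd := by
    refine Finset.prod_pos (fun c hc => ?_)
    have := Finset.ne_of_mem_erase hc
    omega
  have hle : Dd ≤ 2 ^ (M * S.card) := by
    calc Dd ≤ ∏ c ∈ S.erase c0, 2 ^ M := by
          refine Finset.prod_le_prod' (fun c hc => ?_)
          have h1 := hS c (Finset.mem_of_mem_erase hc)
          have h2 := hS c0 hc0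
          omega
      _ = (2 ^ M) ^ (S.erase c0).card := by rw [Finset.prod_const]
      _ ≤ (2 ^ M) ^ S.card := Nat.pow_le_pow_right (by positivity)
          (Finset.card_le_card (Finset.erase_subset _ _))
      _ = 2 ^ (M * S.card) := by rw [pow_mul]
  have hdvd : Lc N ∣ Dd := Lc_dvd (fun p h1 h2 => by
    obtain ⟨c, hc, hmod, hne⟩ := hcon p h1 h2
    have hmem : c ∈ S.erase c0 := Finset.mem_erase.2 ⟨hne, hc⟩
    refine dvd_trans ?_ (Finset.dvd_prod_of_mem _ hmem)
    rcases le_total c c0 with hle | hle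
    · have : c - c0 = 0 := by omega
      rw [this, zero_add]
      exact (Nat.modEq_iff_dvd' hle).1 hmod
    · have : c0 - c = 0 := by omega
      rw [this, add_zero]
      exact (Nat.modEq_iff_dvd' hle).1 hmod.symm)
  have := Nat.le_of_dvd hpos hdvd
  omega

/-! ### Sauer-Shelah -/

lemma card_le_pow_of_not_shatters {X m : ℕ} (hX : 2 ≤ X) (A : Finset (Finset ℕ))
    (hA : ∀ h ∈ A, h ⊆ range X) (hm : ∀ s ⊆ range X, s.card = m → ¬ A.Shatters s) :
    A.card ≤ X ^ m := by
  have h1 : A.shatterer ⊆ (range m).biUnion (fun k => powersetCard k (range X)) := by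
    intro s hs
    rw [mem_shatterer] at hs
    obtain ⟨u, hu, hsu⟩ := hs.exists_superset
    have hsX : s ⊆ range X := hsu.trans (hA u hu)
    simp only [mem_biUnion, mem_range, mem_powersetCard]
    refine ⟨s.card, ?_, hsX, rfl⟩
    by_contra hcon
    push Not at hcon
    obtain ⟨t, ht, htm⟩ := Finset.exists_subset_card_eq hcon
    exact hm t (ht.trans hsX) htm (hs.mono_right ht)
  calc A.card ≤ A.shatterer.card := card_le_card_shatterer A
    _ ≤ _ := card_le_card h1
    _ ≤ ∑ k ∈ range m, (powersetCard k (range X)).card := card_biUnion_le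
    _ ≤ ∑ k ∈ range m, X ^ k := by
        refine Finset.sum_le_sum (fun k _ => ?_)
        rw [card_powersetCard, card_range]
        exact Nat.choose_le_pow X k
    _ ≤ X ^ m := (Nat.geomSum_lt hX (fun k hk => mem_range.1 hk)).le

/-! ### Goedel's beta function with explicit bounds -/

lemma pair_lt (a b : ℕ) : Nat.pair a b < (a + b + 1) ^ 2 := by
  refine lt_of_lt_of_le (Nat.pair_lt_max_add_one_sq a b) (Nat.pow_le_pow_left ?_ 2)
  have : max a b ≤ a + b := by simp
  omega

/-- bound for codes of sequences of length `m` with entries below `V` -/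
def Sb (m V : ℕ) : ℕ := ((m * (Lc m * V) + 1) ^ m + Lc m * V + 1) ^ 2

lemma exists_beta (m V : ℕ) (a : ℕ → ℕ) (ha : ∀ j < m, a j < V) :
    ∃ s < Sb m V, ∀ j < m, Nat.beta s j = a j := by
  rcases Nat.eq_zero_or_pos V with rfl | hV
  · rcases Nat.eq_zero_or_pos m with rfl | hm
    · exact ⟨0, by unfold Sb; positivity, fun j hj => absurd hj (by omega)⟩
    · exact absurd (ha 0 hm) (by omega)
  set d := Lc m * V with hd
  have hd0 : 0 < d := Nat.mul_pos (Lc_pos m) hV
  have hdd : ∀ i, 1 ≤ i → i ≤ m → i ∣ d := fun i h1 h2 => Dvd.dvd.mul_right (dvd_Lc h1 h2) V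
  have hco : (↑(range m) : Set ℕ).Pairwise
      (Function.onFun Nat.Coprime (fun j => (j + 1) * d + 1)) := by
    intro x hx y hy hxy
    exact coprime_steps hdd (by simpa using hx) (by simpa using hy) hxy
  obtain ⟨c, hc⟩ := Nat.chineseRemainderOfFinset a (fun j => (j + 1) * d + 1) (range m)
    (fun i _ => Nat.succ_ne_zero _) hco
  set P := ∏ j ∈ range m, ((j + 1) * d + 1) with hP
  have hPpos : 0 < P := Finset.prod_pos (fun _ _ => Nat.succ_pos _)
  have hPle : P ≤ (m * d + 1) ^ m := code_le (d := d) (X := m) (h := range m) (Subset.refl _)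
  refine ⟨Nat.pair (c % P) d, ?_, fun j hj => ?_⟩
  · have h1 : c % P < P := Nat.mod_lt _ hPpos
    have h2 : Nat.pair (c % P) d < (c % P + d + 1) ^ 2 := pair_lt _ _
    refine lt_of_lt_of_le h2 ?_
    unfold Sb
    rw [← hd]
    exact Nat.pow_le_pow_left (by omega) 2
  · unfold Nat.beta
    rw [Nat.unpair_pair]
    simp only
    have hdvd : ((j + 1) * d + 1) ∣ P :=
      Finset.dvd_prod_of_mem (fun j => (j + 1) * d + 1) (mem_range.2 hj)
    rw [Nat.mod_mod_of_dvd _ hdvd]
    have := hc j (mem_range.2 hj)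
    have h3 : a j < (j + 1) * d + 1 := by
      have h4 := ha j hj
      have h5 : V ≤ d := Nat.le_mul_of_pos_left _ (Lc_pos m)
      have h6 : d ≤ (j + 1) * d := Nat.le_mul_of_pos_left _ (Nat.succ_pos j)
      omega
    rw [← Nat.mod_eq_of_lt h3]
    exact this

end Pool.Agent.LIO
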