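import Pool.Agent.MP_eae0ed_lc.Diag

set_option autoImplicit false
set_option linter.unusedVariables false

open Filter

namespace Pool.Agent.LIO

open Finset

lemma Sb_le {m V : ℕ} (hm : m ≤ V) (hL : Lc m ≤ V) (hV : 4 ≤ V) : Sb m V ≤ 2 ^ (V ^ 4) := by
  unfold Sb
  have h1 : m * (Lc m * V) + 1 ≤ V ^ 4 := by
    have h2 : m * (Lc m * V) ≤ V * (V * V) := Nat.mul_le_mul hm (Nat.mul_le_mul_right _ hL)
    have h3 : V ^ 4 = V * (V * (V * V)) := by ring
    have h4 : 1 ≤ V * (V * V) := by nlinarith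
    nlinarith
  have h5 : (m * (Lc m * V) + 1) ^ m ≤ 2 ^ (4 * V * V) := by
    calc (m * (Lc m * V) + 1) ^ m ≤ (V ^ 4) ^ m := Nat.pow_le_pow_left h1 _
      _ ≤ (V ^ 4) ^ V := Nat.pow_le_pow_right (by positivity) hm
      _ = V ^ (4 * V) := by rw [← pow_mul]
      _ ≤ (2 ^ V) ^ (4 * V) := Nat.pow_le_pow_left (Nat.lt_two_pow_self).le _
      _ = 2 ^ (4 * V * V) := by rw [← pow_mul]; congr 1; ring
  have h6 : Lc m * V + 1 ≤ 2 ^ (4 * V * V) := by
    have h7 : Lc m * V + 1 ≤ 4 * V * V := by nlinarith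
    exact h7.trans (Nat.lt_two_pow_self).le
  calc ((m * (Lc m * V) + 1) ^ m + Lc m * V + 1) ^ 2
      ≤ (2 ^ (4 * V * V) + 2 ^ (4 * V * V)) ^ 2 := Nat.pow_le_pow_left (by omega) 2
    _ = 2 ^ ((4 * V * V + 1) * 2) := by rw [← two_mul, ← pow_succ', ← pow_mul]
    _ ≤ 2 ^ (V ^ 4) := by
        refine Nat.pow_le_pow_right (by norm_num) ?_
        have h8 : V ^ 4 = (V * V) * (V * V) := by ring
        have h9 : 16 ≤ V * V := by nlinarith
        nlinarith

theorem diagF_not_mem : ¬ InA 1 diagF := by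
  classical
  rintro ⟨Φ, hΦ, c, r, X0, hf⟩
  obtain ⟨φ, q, hφ⟩ := hΦ.rep
  -- a large value of `Z`
  obtain ⟨N1, hN1⟩ := eventually_atTop.1 (growth (6 + 3 * c + r + q))
  obtain ⟨Z, hZ⟩ : ∃ Z, Z = N1 + X0 + φ.code + φ.vb + 8 := ⟨_, rfl⟩
  obtain ⟨X, hX⟩ : ∃ X, Z ^ 3 = X := ⟨_, rfl⟩
  have hZX : Z ≤ X := le_cube hX
  have hg : ∀ Y, Z ≤ Y → ∀ p ≤ 6 + 3 * c + r + q, (Y + 2) ^ p ≤ Lc Y := by
    intro Y hY p hp
    exact (Nat.pow_le_pow_right (by omega) hp).trans (hN1 Y (by omega))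
  obtain ⟨w, hw, hfw⟩ := hf X (by omega)
  have hwW : w < Lc Z := by
    refine lt_of_lt_of_le hw ?_
    refine le_trans ?_ (hg Z le_rfl (3 * c) (by omega))
    rw [← hX, ← pow_mul]
    exact Nat.pow_le_pow_left (by omega) _
  obtain ⟨Y0, hY0⟩ : ∃ Y, Y = B 2 X := ⟨_, rfl⟩
  obtain ⟨V, hV⟩ : ∃ V, V = B 3 X := ⟨_, rfl⟩
  obtain ⟨S, hS⟩ : ∃ S, S = B 5 X := ⟨_, rfl⟩
  have hXY0 : X ≤ Y0 := hY0 ▸ le_B 2 X
  have hXV : X ≤ V := hV ▸ le_B 3 X
  have hVY0 : V = Lc Y0 := by rw [hV, hY0]; rfl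
  have hY0V : Y0 ≤ V := hVY0 ▸ le_Lc Y0
  have hy : B 1 (X ^ r) ≤ Y0 := by
    rw [hY0]
    show Lc (X ^ r) ≤ Lc (Lc X)
    apply Lc_mono
    refine le_trans ?_ (hg X hZX r (by omega))
    exact Nat.pow_le_pow_left (by omega) _
  have hfY := hfw Y0 hy
  have hLcZ : Lc Z ≤ Y0 := by
    rw [hY0]
    exact (Lc_mono hZX).trans (Lc_mono (le_Lc X))
  have hSb : Sb Z V ≤ S := by
    refine (Sb_le (hZX.trans hXV) (hLcZ.trans hY0V) (by omega)).trans ?_
    have hS' : S = Lc (Lc V) := by rw [hS, hV]; rfl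
    rw [hS']
    apply two_pow_le_Lc'
    refine le_trans ?_ (hg V (by omega) 6 (by omega))
    have h1 : (V + 2) ^ 6 = (V + 2) ^ 4 * (V + 2) ^ 2 := by ring
    rw [h1, mul_comm]
    refine Nat.mul_le_mul (Nat.pow_le_pow_left (by omega) 4) ?_
    nlinarith
  have hbeta : ∀ a : ℕ → ℕ, (∀ j < Z, a j < V) → ∃ s < S, ∀ j < Z, Nat.beta s j = a j := by
    intro a ha
    obtain ⟨s, hs, h⟩ := exists_beta Z V a ha
    exact ⟨s, hs.trans_le hSb, h⟩
  have hlisted : ∀ x < X, (Listed (Tb V Z S) V Z S X Y0 φ.code w x ↔ Φ ![x, w, X, Y0]) := by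
    intro x hx
    have hYq : (Y0 + 2) ^ q ≤ V := by
      rw [hVY0]
      exact hg Y0 (by omega) q (by omega)
    have hev : ∀ s, (∀ j < Z, Nat.beta s j < V) → Nat.beta s 0 = x → Nat.beta s 1 = w →
        Nat.beta s 2 = X → Nat.beta s 3 = Y0 → (Tb V Z S φ.code s ↔ Φ ![x, w, X, Y0]) := by
      intro s hs h0 h1 h2 h3
      rw [table_correct hbeta φ (by omega) s hs, hφ Y0 V (Nat.beta s) ?_ hYq]
      · have : (fun i : Fin 4 => Nat.beta s i) = ![x, w, X, Y0] := by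
          funext i
          fin_cases i
          · exact h0
          · exact h1
          · exact h2
          · exact h3
        rw [this]
      · intro i hi
        have : i = 0 ∨ i = 1 ∨ i = 2 ∨ i = 3 := by omega
        rcases this with rfl | rfl | rfl | rfl
        · rw [h0]; omega
        · rw [h1]; omega
        · rw [h2]; omega
        · rw [h3]
    constructor
    · rintro ⟨s, hs, hval, h0, h1, h2, h3, hT⟩
      exact (hev s hval h0 h1 h2 h3).1 hT
    · intro hP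
      have hY0lt : Y0 < V := by
        rw [hVY0]
        have := hg Y0 (by omega) 1 (by omega)
        rw [pow_one] at this
        omega
      obtain ⟨s, hs, h⟩ := hbeta (fun j => if j = 0 then x else if j = 1 then w else
        if j = 2 then X else if j = 3 then Y0 else 0) (fun j _ => by
          split_ifs <;> omega)
      have h0 : Nat.beta s 0 = x := by rw [h 0 (by omega)]; simp
      have h1 : Nat.beta s 1 = w := by rw [h 1 (by omega)]; simp
      have h2 : Nat.beta s 2 = X := by rw [h 2 (by omega)]; simp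
      have h3 : Nat.beta s 3 = Y0 := by rw [h 3 (by omega)]; simp
      have hval : ∀ j < Z, Nat.beta s j < V := by
        intro j hj
        rw [h j hj]
        split_ifs <;> omega
      exact ⟨s, hs, hval, h0, h1, h2, h3, (hev s hval h0 h1 h2 h3).2 hP⟩
  obtain ⟨c1, _, hSel⟩ := exists_sel (Tb V Z S) V Z S Y0 (by omega) hX
  obtain ⟨x, hx, hne⟩ := hSel.1.2 φ.code (by omega) w hwW
  apply hne
  rw [hlisted x hx, ← hfY x hx]
  constructor
  · intro hb
    refine ⟨Z, hX, c1, ?_, hb⟩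
    rw [← hV, ← hS, ← hY0]
    exact hSel
  · rintro ⟨Z', hZ', c2, hSel2, hb⟩
    have hZZ : Z' = Z := Nat.pow_left_injective (n := 3) (by norm_num) (hZ'.trans hX.symm)
    subst hZZ
    rw [← hV, ← hS, ← hY0] at hSel2
    rw [hSel.unique hSel2]
    exact hb

theorem not_star {n : ℕ} (hn : 1 ≤ n) : ¬ Star n := by
  intro hstar
  apply diagF_not_mem
  have h : ∀ j, InA (j + 1) diagF → InA 1 diagF := by
    intro j
    induction j with
    | zero => exact id
    | succ j ih => exact fun h => ih (lemmaL hn hstar (by omega) h)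
  exact h 7 diagF_mem

end Pool.Agent.LIO
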