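import Pool.Agent.MP_eae0ed_lc.Language

/-!
# Basic closure lemmas for `Δ₀` definability over `ℕ`
-/

set_option autoImplicit false

open FirstOrder

namespace Pool.Agent.LIO

section Sem

variable {M : Type} [arith.Structure M]

@[simp] lemma zeroM_nat : zeroM ℕ = 0 := rfl
@[simp] lemma oneM_nat : oneM ℕ = 1 := rfl
@[simp] lemma addM_nat (a b : ℕ) : addM a b = a + b := rfl
@[simp] lemma mulM_nat (a b : ℕ) : mulM a b = a * b := rfl
@[simp] lemma ltM_nat (a b : ℕ) : ltM a b ↔ a < b := Iff.rfl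

lemma realize_ltF {α : Type} {n : ℕ} (s t : arith.Term (α ⊕ Fin n)) (v : α → M) (xs : Fin n → M) :
    (ltF s t).Realize v xs ↔
      ltM (s.realize (Sum.elim v xs)) (t.realize (Sum.elim v xs)) := by
  unfold ltF ltM
  simp only [Language.BoundedFormula.Realize]
  have : (fun i => Language.Term.realize (Sum.elim v xs) ((![s, t] : Fin 2 → _) i))
      = ![s.realize (Sum.elim v xs), t.realize (Sum.elim v xs)] := by
    funext i
    fin_cases i <;> rfl
  rw [this]

lemma realize_liftT {α : Type} {n : ℕ} (t : arith.Term (α ⊕ Fin n)) (v : α → M)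
    (xs : Fin (n + 1) → M) :
    (liftT t).realize (Sum.elim v xs) = t.realize (Sum.elim v (fun i => xs i.castSucc)) := by
  unfold liftT
  rw [Language.Term.realize_relabel]
  congr 1
  funext i
  cases i <;> rfl

lemma realize_newVar {α : Type} {n : ℕ} (v : α → M) (xs : Fin (n + 1) → M) :
    (newVar : arith.Term (α ⊕ Fin (n + 1))).realize (Sum.elim v xs) = xs (Fin.last n) := rfl

lemma realize_ball {α : Type} {n : ℕ} (t : arith.Term (α ⊕ Fin n))
    (φ : arith.BoundedFormula α (n + 1)) (v : α → M) (xs : Fin n → M) :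
    (((ltF newVar (liftT t)).imp φ).all).Realize v xs ↔
      ∀ z : M, ltM z (t.realize (Sum.elim v xs)) → φ.Realize v (Fin.snoc xs z) := by
  simp only [Language.BoundedFormula.realize_all, Language.BoundedFormula.realize_imp]
  refine forall_congr' fun z => ?_
  rw [realize_ltF, realize_newVar, realize_liftT]
  simp

lemma realize_bex {α : Type} {n : ℕ} (t : arith.Term (α ⊕ Fin n))
    (φ : arith.BoundedFormula α (n + 1)) (v : α → M) (xs : Fin n → M) :
    ((ltF newVar (liftT t) ⊓ φ).ex).Realize v xs ↔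
      ∃ z : M, ltM z (t.realize (Sum.elim v xs)) ∧ φ.Realize v (Fin.snoc xs z) := by
  simp only [Language.BoundedFormula.realize_ex, Language.BoundedFormula.realize_inf]
  refine exists_congr fun z => ?_
  rw [realize_ltF, realize_newVar, realize_liftT]
  simp

end Sem

/-! ### Term functions -/

/-- functions given by terms -/
def TT {n : ℕ} (f : (Fin n → ℕ) → ℕ) : Prop :=
  ∃ t : arith.Term (Empty ⊕ Fin n), ∀ v : Fin n → ℕ, t.realize (Sum.elim default v) = f v

lemma TT.var {n : ℕ} (i : Fin n) : TT (fun v => v i) :=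
  ⟨Language.Term.var (Sum.inr i), fun _ => rfl⟩

lemma TT.zero {n : ℕ} : TT (fun _ : Fin n → ℕ => 0) :=
  ⟨Language.Term.func (L := arith) (l := 0) ArithFunc.zero ![], fun _ => rfl⟩

lemma TT.one {n : ℕ} : TT (fun _ : Fin n → ℕ => 1) :=
  ⟨Language.Term.func (L := arith) (l := 0) ArithFunc.one ![], fun _ => rfl⟩

lemma TT.add {n : ℕ} {f g : (Fin n → ℕ) → ℕ} (hf : TT f) (hg : TT g) :
    TT (fun v => f v + g v) := by
  obtain ⟨s, hs⟩ := hf
  obtain ⟨t, ht⟩ := hg
  refine ⟨Language.Term.func (L := arith) (l := 2) ArithFunc.add ![s, t], fun v => ?_⟩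
  show _ = f v + g v
  rw [← hs v, ← ht v]
  rfl

lemma TT.mul {n : ℕ} {f g : (Fin n → ℕ) → ℕ} (hf : TT f) (hg : TT g) :
    TT (fun v => f v * g v) := by
  obtain ⟨s, hs⟩ := hf
  obtain ⟨t, ht⟩ := hg
  refine ⟨Language.Term.func (L := arith) (l := 2) ArithFunc.mul ![s, t], fun v => ?_⟩
  show _ = f v * g v
  rw [← hs v, ← ht v]
  rfl

lemma TT.const {n : ℕ} (k : ℕ) : TT (fun _ : Fin n → ℕ => k) := by
  induction k with
  | zero => exact TT.zero
  | succ k ih => exact TT.add ih TT.one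

lemma TT.pow {n : ℕ} {f : (Fin n → ℕ) → ℕ} (hf : TT f) (k : ℕ) : TT (fun v => f v ^ k) := by
  induction k with
  | zero => simpa using (TT.one (n := n))
  | succ k ih =>
    simp only [pow_succ]
    exact TT.mul ih hf

/-! ### Semantic definability -/

/-- `Δ₀`-definable relations on `ℕ`. -/
def D {n : ℕ} (P : (Fin n → ℕ) → Prop) : Prop :=
  ∃ φ : arith.BoundedFormula Empty n, IsDelta0 φ ∧ ∀ v : Fin n → ℕ, φ.Realize default v ↔ P v

lemma D.congr {n : ℕ} {P Q : (Fin n → ℕ) → Prop} (hP : D P) (h : ∀ v, P v ↔ Q v) : D Q := by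
  obtain ⟨φ, h1, h2⟩ := hP
  exact ⟨φ, h1, fun v => (h2 v).trans (h v)⟩

lemma D.false {n : ℕ} : D (fun _ : Fin n → ℕ => False) :=
  ⟨⊥, IsDelta0.falsum, fun _ => Iff.rfl⟩

lemma D.imp {n : ℕ} {P Q : (Fin n → ℕ) → Prop} (hP : D P) (hQ : D Q) :
    D (fun v => P v → Q v) := by
  obtain ⟨φ, h1, h2⟩ := hP
  obtain ⟨ψ, h3, h4⟩ := hQ
  refine ⟨φ.imp ψ, IsDelta0.imp h1 h3, fun v => ?_⟩
  rw [Language.BoundedFormula.realize_imp, h2, h4]

lemma D.not {n : ℕ} {P : (Fin n → ℕ) → Prop} (hP : D P) : D (fun v => ¬ P v) :=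
  D.imp hP D.false

lemma D.true {n : ℕ} : D (fun _ : Fin n → ℕ => True) :=
  (D.not D.false).congr (fun _ => by simp)

lemma D.and {n : ℕ} {P Q : (Fin n → ℕ) → Prop} (hP : D P) (hQ : D Q) :
    D (fun v => P v ∧ Q v) :=
  (D.not (D.imp hP (D.not hQ))).congr (fun v => by tauto)

lemma D.or {n : ℕ} {P Q : (Fin n → ℕ) → Prop} (hP : D P) (hQ : D Q) :
    D (fun v => P v ∨ Q v) :=
  (D.imp (D.not hP) hQ).congr (fun v => by tauto)

lemma D.iff {n : ℕ} {P Q : (Fin n → ℕ) → Prop} (hP : D P) (hQ : D Q) :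
    D (fun v => P v ↔ Q v) :=
  (D.and (D.imp hP hQ) (D.imp hQ hP)).congr (fun v => by tauto)

lemma D.eqT {n : ℕ} {f g : (Fin n → ℕ) → ℕ} (hf : TT f) (hg : TT g) :
    D (fun v => f v = g v) := by
  obtain ⟨s, hs⟩ := hf
  obtain ⟨t, ht⟩ := hg
  refine ⟨Language.BoundedFormula.equal s t, IsDelta0.equal s t, fun v => ?_⟩
  simp only [Language.BoundedFormula.Realize]
  rw [hs, ht]

lemma D.ltT {n : ℕ} {f g : (Fin n → ℕ) → ℕ} (hf : TT f) (hg : TT g) :
    D (fun v => f v < g v) := by
  obtain ⟨s, hs⟩ := hf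
  obtain ⟨t, ht⟩ := hg
  refine ⟨ltF s t, IsDelta0.less s t, fun v => ?_⟩
  rw [realize_ltF, hs, ht, ltM_nat]

lemma D.ballT {n : ℕ} {f : (Fin n → ℕ) → ℕ} {P : ℕ → (Fin n → ℕ) → Prop} (hf : TT f)
    (hP : D (fun v : Fin (n + 1) → ℕ => P (v (Fin.last n)) (fun i => v i.castSucc))) :
    D (fun v => ∀ z < f v, P z v) := by
  obtain ⟨t, ht⟩ := hf
  obtain ⟨φ, h1, h2⟩ := hP
  refine ⟨_, IsDelta0.ball t h1, fun v => ?_⟩
  rw [realize_ball, ht]
  refine forall_congr' fun z => ?_
  rw [ltM_nat, h2]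
  simp

lemma D.bexT {n : ℕ} {f : (Fin n → ℕ) → ℕ} {P : ℕ → (Fin n → ℕ) → Prop} (hf : TT f)
    (hP : D (fun v : Fin (n + 1) → ℕ => P (v (Fin.last n)) (fun i => v i.castSucc))) :
    D (fun v => ∃ z < f v, P z v) :=
  (D.not (D.ballT (P := fun z v => ¬ P z v) hf (D.not hP))).congr (fun v => by push Not; rfl)

/-- substitution of terms for free and bound variables, semantically -/
lemma IsDelta0.subst {α : Type} {k : ℕ} {φ : arith.BoundedFormula α k} (hφ : IsDelta0 φ) :
    ∀ {β : Type} {n : ℕ} (f : α → arith.Term (β ⊕ Fin n)) (g : Fin k → arith.Term (β ⊕ Fin n)),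
      ∃ ψ : arith.BoundedFormula β n, IsDelta0 ψ ∧
        ∀ {M : Type} [arith.Structure M] (v : β → M) (xs : Fin n → M),
          ψ.Realize v xs ↔ φ.Realize (fun a => (f a).realize (Sum.elim v xs))
            (fun i => (g i).realize (Sum.elim v xs)) := by
  induction hφ with
  | falsum => 
    intro β n f g
    exact ⟨⊥, IsDelta0.falsum, fun v xs => Iff.rfl⟩
  | equal s t =>
    intro β n f g
    refine ⟨Language.BoundedFormula.equal (s.subst (Sum.elim f g)) (t.subst (Sum.elim f g)),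
      IsDelta0.equal _ _, fun v xs => ?_⟩
    simp only [Language.BoundedFormula.Realize, Language.Term.realize_subst]
    have : (fun a => Language.Term.realize (Sum.elim v xs) (Sum.elim f g a)) =
        Sum.elim (fun a => (f a).realize (Sum.elim v xs)) (fun i => (g i).realize (Sum.elim v xs)) := by
      funext a
      cases a <;> rfl
    rw [this]
  | less s t =>
    intro β n f g
    refine ⟨ltF (s.subst (Sum.elim f g)) (t.subst (Sum.elim f g)),
      IsDelta0.less _ _, fun v xs => ?_⟩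
    rw [realize_ltF, realize_ltF]
    simp only [Language.Term.realize_subst]
    have : (fun a => Language.Term.realize (Sum.elim v xs) (Sum.elim f g a)) =
        Sum.elim (fun a => (f a).realize (Sum.elim v xs)) (fun i => (g i).realize (Sum.elim v xs)) := by
      funext a
      cases a <;> rfl
    rw [this]
  | imp _ _ ih1 ih2 =>
    intro β n f g
    obtain ⟨ψ1, h1, h1'⟩ := ih1 f g
    obtain ⟨ψ2, h2, h2'⟩ := ih2 f g
    refine ⟨ψ1.imp ψ2, IsDelta0.imp h1 h2, fun v xs => ?_⟩
    rw [Language.BoundedFormula.realize_imp, Language.BoundedFormula.realize_imp, h1', h2']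
  | @ball k t φ _ ih =>
    intro β n f g
    obtain ⟨ψ, h1, h2⟩ := ih (β := β) (n := n + 1) (fun a => liftT (f a))
      (Fin.snoc (α := fun _ => arith.Term (β ⊕ Fin (n + 1))) (fun i => liftT (g i)) newVar)
    refine ⟨_, IsDelta0.ball (t.subst (Sum.elim f g)) h1, fun v xs => ?_⟩
    rw [realize_ball, realize_ball]
    refine forall_congr' fun z => ?_
    rw [h2, Language.Term.realize_subst]
    have e1 : (fun a => Language.Term.realize (Sum.elim v xs) (Sum.elim f g a)) =
        Sum.elim (fun a => (f a).realize (Sum.elim v xs)) (fun i => (g i).realize (Sum.elim v xs)) := by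
      funext a
      cases a <;> rfl
    rw [e1]
    have e2 : (fun a => Language.Term.realize (Sum.elim v (Fin.snoc xs z : Fin (n + 1) → _)) (liftT (f a)))
        = (fun a => (f a).realize (Sum.elim v xs)) := by
      funext a
      rw [realize_liftT]
      simp
    have e3 : (fun i => Language.Term.realize (Sum.elim v (Fin.snoc xs z : Fin (n + 1) → _))
        ((Fin.snoc (α := fun _ => arith.Term (β ⊕ Fin (n + 1))) (fun i => liftT (g i)) newVar : Fin (k+1) → _) i))
        = Fin.snoc (fun i => (g i).realize (Sum.elim v xs)) z := by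
      funext i
      refine Fin.lastCases ?_ (fun i => ?_) i
      · simp [realize_newVar]
      · simp only [Fin.snoc_castSucc]
        rw [realize_liftT]
        simp
    rw [e2, e3]
  | @bex k t φ _ ih =>
    intro β n f g
    obtain ⟨ψ, h1, h2⟩ := ih (β := β) (n := n + 1) (fun a => liftT (f a))
      (Fin.snoc (α := fun _ => arith.Term (β ⊕ Fin (n + 1))) (fun i => liftT (g i)) newVar)
    refine ⟨_, IsDelta0.bex (t.subst (Sum.elim f g)) h1, fun v xs => ?_⟩
    rw [realize_bex, realize_bex]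
    refine exists_congr fun z => ?_
    rw [h2, Language.Term.realize_subst]
    have e1 : (fun a => Language.Term.realize (Sum.elim v xs) (Sum.elim f g a)) =
        Sum.elim (fun a => (f a).realize (Sum.elim v xs)) (fun i => (g i).realize (Sum.elim v xs)) := by
      funext a
      cases a <;> rfl
    rw [e1]
    have e2 : (fun a => Language.Term.realize (Sum.elim v (Fin.snoc xs z : Fin (n + 1) → _)) (liftT (f a)))
        = (fun a => (f a).realize (Sum.elim v xs)) := by
      funext a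
      rw [realize_liftT]
      simp
    have e3 : (fun i => Language.Term.realize (Sum.elim v (Fin.snoc xs z : Fin (n + 1) → _))
        ((Fin.snoc (α := fun _ => arith.Term (β ⊕ Fin (n + 1))) (fun i => liftT (g i)) newVar : Fin (k+1) → _) i))
        = Fin.snoc (fun i => (g i).realize (Sum.elim v xs)) z := by
      funext i
      refine Fin.lastCases ?_ (fun i => ?_) i
      · simp [realize_newVar]
      · simp only [Fin.snoc_castSucc]
        rw [realize_liftT]
        simp
    rw [e2, e3]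

lemma D.comp {k n : ℕ} {P : (Fin k → ℕ) → Prop} (hP : D P) {f : Fin k → (Fin n → ℕ) → ℕ}
    (hf : ∀ i, TT (f i)) : D (fun v => P (fun i => f i v)) := by
  obtain ⟨φ, h1, h2⟩ := hP
  choose t ht using hf
  obtain ⟨ψ, h3, h4⟩ := h1.subst (β := Empty) (n := n) (fun a => a.elim) t
  refine ⟨ψ, h3, fun v => ?_⟩
  show _ ↔ P (fun i => f i v)
  rw [h4, ← h2]
  have e1 : (fun a : Empty => Language.Term.realize (Sum.elim (default : Empty → ℕ) v)
    (a.elim : arith.Term (Empty ⊕ Fin n))) = default := by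
    funext a
    exact a.elim
  have e2 : (fun i => Language.Term.realize (Sum.elim (default : Empty → ℕ) v) (t i)) = fun i => f i v := by
    funext i
    exact ht i v
  rw [e1, e2]


lemma TT.weaken {n : ℕ} {f : (Fin n → ℕ) → ℕ} (hf : TT f) :
    TT (fun v : Fin (n + 1) → ℕ => f (fun i => v i.castSucc)) := by
  obtain ⟨t, ht⟩ := hf
  refine ⟨liftT t, fun v => ?_⟩
  rw [realize_liftT, ht]

lemma D.weaken {n : ℕ} {P : (Fin n → ℕ) → Prop} (hP : D P) :
    D (fun v : Fin (n + 1) → ℕ => P (fun i => v i.castSucc)) :=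
  D.comp hP (f := fun i v => v i.castSucc) (fun _ => TT.var _)

/-- functions with a `Δ₀` graph and polynomial growth -/
def F0 {n : ℕ} (f : (Fin n → ℕ) → ℕ) : Prop :=
  (∃ b : (Fin n → ℕ) → ℕ, TT b ∧ ∀ v, f v ≤ b v) ∧
    D (fun v : Fin (n + 1) → ℕ => v (Fin.last n) = f (fun i => v i.castSucc))

lemma TT.F0 {n : ℕ} {f : (Fin n → ℕ) → ℕ} (hf : TT f) : F0 f :=
  ⟨⟨f, hf, fun _ => le_rfl⟩, D.eqT (TT.var _) hf.weaken⟩

/-- substituting a bounded `Δ₀` function into a `Δ₀` relation -/
lemma D.bind {n : ℕ} {f : (Fin n → ℕ) → ℕ} {P : ℕ → (Fin n → ℕ) → Prop} (hf : F0 f)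
    (hP : D (fun v : Fin (n + 1) → ℕ => P (v (Fin.last n)) (fun i => v i.castSucc))) :
    D (fun v => P (f v) v) := by
  obtain ⟨⟨b, hb, hb'⟩, hD⟩ := hf
  refine (D.bexT (f := fun v => b v + 1) (P := fun z v => z = f v ∧ P z v)
    (TT.add hb TT.one) (D.and hD hP)).congr (fun v => ?_)
  constructor
  · rintro ⟨z, _, rfl, h⟩
    exact h
  · intro h
    exact ⟨f v, Nat.lt_succ_of_le (hb' v), rfl, h⟩

lemma F0.weaken {n : ℕ} {f : (Fin n → ℕ) → ℕ} (hf : F0 f) :
    F0 (fun v : Fin (n + 1) → ℕ => f (fun i => v i.castSucc)) := by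
  obtain ⟨⟨b, hb, hb'⟩, hD⟩ := hf
  refine ⟨⟨_, hb.weaken, fun v => hb' _⟩, ?_⟩
  exact (D.comp hD (f := fun (i : Fin (n + 1)) (v : Fin (n + 1 + 1) → ℕ) =>
    (Fin.lastCases (motive := fun _ => ℕ) (v (Fin.last _)) (fun j => v j.castSucc.castSucc) i))
    (fun i => by
      refine Fin.lastCases ?_ (fun j => ?_) i
      · simpa using TT.var _
      · simpa using TT.var _)).congr (fun v => by simp)

lemma F0.var {n : ℕ} (i : Fin n) : F0 (fun v : Fin n → ℕ => v i) := (TT.var i).F0

lemma F0.const {n : ℕ} (k : ℕ) : F0 (fun _ : Fin n → ℕ => k) := (TT.const k).F0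

lemma D.eq {n : ℕ} {f g : (Fin n → ℕ) → ℕ} (hf : F0 f) (hg : F0 g) :
    D (fun v => f v = g v) := by
  refine D.bind (P := fun z v => z = g v) hf ?_
  refine D.bind (P := fun (z : ℕ) (v : Fin (n + 1) → ℕ) => v (Fin.last n) = z) hg.weaken ?_
  exact D.eqT (TT.var _) (TT.var _)

lemma D.lt {n : ℕ} {f g : (Fin n → ℕ) → ℕ} (hf : F0 f) (hg : F0 g) :
    D (fun v => f v < g v) := by
  refine D.bind (P := fun z v => z < g v) hf ?_
  refine D.bind (P := fun (z : ℕ) (v : Fin (n + 1) → ℕ) => v (Fin.last n) < z) hg.weaken ?_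
  exact D.ltT (TT.var _) (TT.var _)

lemma D.le {n : ℕ} {f g : (Fin n → ℕ) → ℕ} (hf : F0 f) (hg : F0 g) :
    D (fun v => f v ≤ g v) :=
  (D.not (D.lt hg hf)).congr (fun v => not_lt)

lemma D.ball {n : ℕ} {f : (Fin n → ℕ) → ℕ} {P : ℕ → (Fin n → ℕ) → Prop} (hf : F0 f)
    (hP : D (fun v : Fin (n + 1) → ℕ => P (v (Fin.last n)) (fun i => v i.castSucc))) :
    D (fun v => ∀ z < f v, P z v) := by
  refine D.bind (P := fun w v => ∀ z < w, P z v) hf ?_
  refine D.ballT (P := fun (z : ℕ) (v : Fin (n + 1) → ℕ) => P z (fun i => v i.castSucc))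
    (TT.var _) ?_
  exact (D.comp hP (f := fun (i : Fin (n + 1)) (v : Fin (n + 1 + 1) → ℕ) =>
    (Fin.lastCases (motive := fun _ => ℕ) (v (Fin.last _)) (fun j => v j.castSucc.castSucc) i))
    (fun i => by
      refine Fin.lastCases ?_ (fun j => ?_) i
      · simpa using TT.var _
      · simpa using TT.var _)).congr (fun v => by simp)

lemma D.bex {n : ℕ} {f : (Fin n → ℕ) → ℕ} {P : ℕ → (Fin n → ℕ) → Prop} (hf : F0 f)
    (hP : D (fun v : Fin (n + 1) → ℕ => P (v (Fin.last n)) (fun i => v i.castSucc))) :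
    D (fun v => ∃ z < f v, P z v) :=
  (D.not (D.ball (P := fun z v => ¬ P z v) hf (D.not hP))).congr (fun v => by push Not; rfl)

lemma D.ballLe {n : ℕ} {f : (Fin n → ℕ) → ℕ} {P : ℕ → (Fin n → ℕ) → Prop} (hf : F0 f)
    (hP : D (fun v : Fin (n + 1) → ℕ => P (v (Fin.last n)) (fun i => v i.castSucc))) :
    D (fun v => ∀ z ≤ f v, P z v) := by
  refine D.bind (P := fun w v => ∀ z ≤ w, P z v) hf ?_
  refine (D.ballT (f := fun v => v (Fin.last n) + 1)
    (P := fun (z : ℕ) (v : Fin (n + 1) → ℕ) => P z (fun i => v i.castSucc))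
    (TT.add (TT.var _) TT.one) ?_).congr (fun v => by simp)
  exact (D.comp hP (f := fun (i : Fin (n + 1)) (v : Fin (n + 1 + 1) → ℕ) =>
    (Fin.lastCases (motive := fun _ => ℕ) (v (Fin.last _)) (fun j => v j.castSucc.castSucc) i))
    (fun i => by
      refine Fin.lastCases ?_ (fun j => ?_) i
      · simpa using TT.var _
      · simpa using TT.var _)).congr (fun v => by simp)

lemma D.bexLe {n : ℕ} {f : (Fin n → ℕ) → ℕ} {P : ℕ → (Fin n → ℕ) → Prop} (hf : F0 f)
    (hP : D (fun v : Fin (n + 1) → ℕ => P (v (Fin.last n)) (fun i => v i.castSucc))) :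
    D (fun v => ∃ z ≤ f v, P z v) :=
  (D.not (D.ballLe (P := fun z v => ¬ P z v) hf (D.not hP))).congr (fun v => by push Not; rfl)

lemma TT.comp {k n : ℕ} {F : (Fin k → ℕ) → ℕ} (hF : TT F) {f : Fin k → (Fin n → ℕ) → ℕ}
    (hf : ∀ i, TT (f i)) : TT (fun v => F (fun i => f i v)) := by
  obtain ⟨t, ht⟩ := hF
  choose s hs using hf
  refine ⟨t.subst (Sum.elim (fun a => a.elim) s), fun v => ?_⟩
  show _ = F (fun i => f i v)
  rw [Language.Term.realize_subst, ← ht]
  congr 1
  funext a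
  rcases a with a | a
  · exact a.elim
  · exact hs a v

/-- monotone polynomial majorants -/
lemma TT.exists_mono {n : ℕ} {f : (Fin n → ℕ) → ℕ} (hf : TT f) : Monotone f := by
  obtain ⟨t, ht⟩ := hf
  have key : ∀ t : arith.Term (Empty ⊕ Fin n),
      Monotone (fun v : Fin n → ℕ => t.realize (Sum.elim default v)) := by
    intro t
    induction t with
    | var a =>
      intro v w h
      rcases a with a | a
      · exact a.elim
      · exact h a
    | @func l F ts ih =>
      intro v w h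
      cases F with
      | zero => exact le_rfl
      | one => exact le_rfl
      | add => exact Nat.add_le_add (ih 0 h) (ih 1 h)
      | mul => exact Nat.mul_le_mul (ih 0 h) (ih 1 h)
  intro v w h
  rw [← ht, ← ht]
  exact key t h

end Pool.Agent.LIO
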