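import Pool.Agent.MP_eae0ed_lc.Univ

set_option autoImplicit false
set_option linter.unusedVariables false

open Filter

namespace Pool.Agent.LIO

open Finset

/-! ### Growth -/

lemma eventually_pow_lt_two_pow (k : ℕ) : ∀ᶠ n : ℕ in atTop, n ^ k < 2 ^ n := by
  have h := tendsto_pow_const_mul_const_pow_of_abs_lt_one k (r := (1 / 2 : ℝ))
    (by rw [abs_of_pos (by norm_num)]; norm_num)
  have h1 : ∀ᶠ n : ℕ in atTop, (n : ℝ) ^ k * (1 / 2 : ℝ) ^ n < 1 :=
    h.eventually (gt_mem_nhds (by norm_num))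
  filter_upwards [h1] with n hn
  rw [one_div, inv_pow, ← div_eq_mul_inv, div_lt_one (by positivity)] at hn
  exact_mod_cast hn

lemma growth (q : ℕ) : ∀ᶠ Y : ℕ in atTop, (Y + 2) ^ q ≤ Lc Y := by
  have h1 := eventually_pow_lt_two_pow (2 * q)
  have h2 : Tendsto (fun Y : ℕ => Y / 2) atTop atTop := by
    apply tendsto_atTop.2
    intro b
    filter_upwards [eventually_ge_atTop (2 * b)] with Y hY
    omega
  filter_upwards [h2.eventually h1, eventually_ge_atTop 6] with Y hY hY6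
  have h3 : 2 ^ (Y / 2) ≤ Lc Y := two_pow_le_Lc' (by omega)
  refine le_trans ?_ h3
  refine le_trans ?_ hY.le
  rw [pow_mul]
  refine Nat.pow_le_pow_left ?_ q
  have h4 : Y ≤ 2 * (Y / 2) + 1 := by omega
  have h5 : 3 ≤ Y / 2 := by omega
  nlinarith

/-! ### The diagonal predicate -/

/-- `x` belongs to the set computed by the code `e` with advice `w` -/
def Listed (T : ℕ → ℕ → Prop) (V K S X Y0 e w x : ℕ) : Prop :=
  ∃ s < S, (∀ j < K, Nat.beta s j < V) ∧ Nat.beta s 0 = x ∧ Nat.beta s 1 = w ∧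
    Nat.beta s 2 = X ∧ Nat.beta s 3 = Y0 ∧ T e s

/-- the set coded by `c` is not computed by any code `e < E` with advice `w < W` -/
def NL (T : ℕ → ℕ → Prop) (V K S X Y0 E W d c : ℕ) : Prop :=
  ∀ e < E, ∀ w < W, ∃ x < X, ¬ (bit c d x ↔ Listed T V K S X Y0 e w x)

/-- `c` is the least positive code of a set which is not listed -/
def Sel (T : ℕ → ℕ → Prop) (V K S X Y0 E W d c : ℕ) : Prop :=
  (0 < c ∧ NL T V K S X Y0 E W d c) ∧ ∀ c' < c, 0 < c' → ¬ NL T V K S X Y0 E W d c'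

/-- the table property for the set coded by `cT` -/
def IsTab (V K S E dT cT : ℕ) : Prop :=
  ∀ e < E, ∀ s < S, (bit cT dT (Nat.pair e s) ↔
    Clause V K S (fun e' s' => bit cT dT (Nat.pair e' s')) e s)

/-- the diagonal predicate -/
def diagF (x X : ℕ) : Prop :=
  ∃ Z, Z ^ 3 = X ∧ ∃ c, Sel (Tb (B 3 X) Z (B 5 X)) (B 3 X) Z (B 5 X) X (B 2 X) Z (Lc Z) (Lc X) c ∧
    bit c (Lc X) x

/-- its `Δ₀` definition with a large parameter -/
def PhiD (v : Fin 4 → ℕ) : Prop :=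
  ∃ Z ≤ v 2, Z ^ 3 = v 2 ∧ ∃ Y0 ≤ v 3, Y0 = B 2 (v 2) ∧ ∃ V ≤ v 3, V = B 3 (v 2) ∧
    ∃ S ≤ v 3, S = B 5 (v 2) ∧ ∃ dT ≤ v 3, dT = B 7 (v 2) ∧ ∃ W ≤ v 3, W = Lc Z ∧
    ∃ d ≤ v 3, d = Lc (v 2) ∧ ∃ cT ≤ v 3, IsTab V Z S Z dT cT ∧
    ∃ c ≤ v 3, Sel (fun e s => bit cT dT (Nat.pair e s)) V Z S (v 2) Y0 Z W d c ∧ bit c d (v 0)

lemma D.PhiD : D PhiD := by
  unfold LIO.PhiD IsTab Sel NL Listed Clause
  refine D.bexLe (F0.var _) ?_
  refine D.and (D.eq (F0.pow (F0.var _) _) (F0.var _)) ?_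
  refine D.bexLe (F0.var _) ?_
  refine D.and (D.eqB _ (F0.var _) (F0.var _)) ?_
  refine D.bexLe (F0.var _) ?_
  refine D.and (D.eqB _ (F0.var _) (F0.var _)) ?_
  refine D.bexLe (F0.var _) ?_
  refine D.and (D.eqB _ (F0.var _) (F0.var _)) ?_
  refine D.bexLe (F0.var _) ?_
  refine D.and (D.eqB _ (F0.var _) (F0.var _)) ?_
  refine D.bexLe (F0.var _) ?_
  refine D.and (D.eqLc (F0.var _) (F0.var _)) ?_
  refine D.bexLe (F0.var _) ?_
  refine D.and (D.eqLc (F0.var _) (F0.var _)) ?_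
  refine D.bexLe (F0.var _) ?_
  refine D.and ?_ ?_
  · -- the table
    refine D.ball (F0.var _) ?_
    refine D.ball (F0.var _) ?_
    refine D.iff (D.bit (F0.var _) (F0.var _) (F0.pair (F0.var _) (F0.var _))) ?_
    refine D.or (D.and (D.eq (F0.fst (F0.var _)) (F0.const 0)) ?_) ?_
    · exact D.eq (F0.add (F0.beta (F0.var _) (F0.fst (F0.snd (F0.var _))))
        (F0.beta (F0.var _) (F0.fst (F0.snd (F0.snd (F0.var _))))))
        (F0.beta (F0.var _) (F0.snd (F0.snd (F0.snd (F0.var _)))))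
    refine D.or (D.and (D.eq (F0.fst (F0.var _)) (F0.const 1)) ?_) ?_
    · exact D.eq (F0.mul (F0.beta (F0.var _) (F0.fst (F0.snd (F0.var _))))
        (F0.beta (F0.var _) (F0.fst (F0.snd (F0.snd (F0.var _))))))
        (F0.beta (F0.var _) (F0.snd (F0.snd (F0.snd (F0.var _)))))
    refine D.or (D.and (D.eq (F0.fst (F0.var _)) (F0.const 2)) ?_) ?_
    · exact D.imp
        (D.bit (F0.var _) (F0.var _) (F0.pair (F0.fst (F0.snd (F0.var _))) (F0.var _)))
        (D.bit (F0.var _) (F0.var _) (F0.pair (F0.fst (F0.snd (F0.snd (F0.var _)))) (F0.var _)))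
    refine D.and (D.eq (F0.fst (F0.var _)) (F0.const 3)) ?_
    refine D.ball (F0.var _) ?_
    refine D.imp (D.ball (F0.var _) (D.lt (F0.beta (F0.var _) (F0.var _)) (F0.var _))) ?_
    refine D.imp (D.ball (F0.var _) (D.imp (D.not (D.eq (F0.var _) (F0.fst (F0.snd (F0.var _)))))
      (D.eq (F0.beta (F0.var _) (F0.var _)) (F0.beta (F0.var _) (F0.var _))))) ?_
    exact D.bit (F0.var _) (F0.var _) (F0.pair (F0.fst (F0.snd (F0.snd (F0.var _)))) (F0.var _))
  refine D.bexLe (F0.var _) ?_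
  refine D.and ?_ (D.bit (F0.var _) (F0.var _) (F0.var _))
  refine D.and (D.and (D.lt (F0.const 0) (F0.var _)) ?_) ?_
  · refine D.ball (F0.var _) ?_
    refine D.ball (F0.var _) ?_
    refine D.bex (F0.var _) ?_
    refine D.not (D.iff (D.bit (F0.var _) (F0.var _) (F0.var _)) ?_)
    refine D.bex (F0.var _) ?_
    refine D.and (D.ball (F0.var _) (D.lt (F0.beta (F0.var _) (F0.var _)) (F0.var _))) ?_
    refine D.and (D.eq (F0.beta (F0.var _) (F0.const 0)) (F0.var _)) ?_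
    refine D.and (D.eq (F0.beta (F0.var _) (F0.const 1)) (F0.var _)) ?_
    refine D.and (D.eq (F0.beta (F0.var _) (F0.const 2)) (F0.var _)) ?_
    refine D.and (D.eq (F0.beta (F0.var _) (F0.const 3)) (F0.var _)) ?_
    exact D.bit (F0.var _) (F0.var _) (F0.pair (F0.var _) (F0.var _))
  · refine D.ball (F0.var _) ?_
    refine D.imp (D.lt (F0.const 0) (F0.var _)) (D.not ?_)
    refine D.ball (F0.var _) ?_
    refine D.ball (F0.var _) ?_
    refine D.bex (F0.var _) ?_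
    refine D.not (D.iff (D.bit (F0.var _) (F0.var _) (F0.var _)) ?_)
    refine D.bex (F0.var _) ?_
    refine D.and (D.ball (F0.var _) (D.lt (F0.beta (F0.var _) (F0.var _)) (F0.var _))) ?_
    refine D.and (D.eq (F0.beta (F0.var _) (F0.const 0)) (F0.var _)) ?_
    refine D.and (D.eq (F0.beta (F0.var _) (F0.const 1)) (F0.var _)) ?_
    refine D.and (D.eq (F0.beta (F0.var _) (F0.const 2)) (F0.var _)) ?_
    refine D.and (D.eq (F0.beta (F0.var _) (F0.const 3)) (F0.var _)) ?_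
    exact D.bit (F0.var _) (F0.var _) (F0.pair (F0.var _) (F0.var _))

lemma Listed.congr {T T' : ℕ → ℕ → Prop} {V K S X Y0 E : ℕ}
    (h : ∀ e < E, ∀ s < S, (T e s ↔ T' e s)) {e : ℕ} (he : e < E) (w x : ℕ) :
    Listed T V K S X Y0 e w x ↔ Listed T' V K S X Y0 e w x := by
  unfold Listed
  refine exists_congr fun s => and_congr_right fun hs => ?_
  rw [h e he s hs]

lemma NL.congr {T T' : ℕ → ℕ → Prop} {V K S X Y0 E : ℕ}
    (h : ∀ e < E, ∀ s < S, (T e s ↔ T' e s)) (W d c : ℕ) :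
    NL T V K S X Y0 E W d c ↔ NL T' V K S X Y0 E W d c := by
  unfold NL
  refine forall_congr' fun e => forall_congr' fun he => forall_congr' fun w =>
    forall_congr' fun _ => exists_congr fun x => and_congr_right fun _ => ?_
  rw [Listed.congr h he]

lemma Sel.congr {T T' : ℕ → ℕ → Prop} {V K S X Y0 E : ℕ}
    (h : ∀ e < E, ∀ s < S, (T e s ↔ T' e s)) (W d c : ℕ) :
    Sel T V K S X Y0 E W d c ↔ Sel T' V K S X Y0 E W d c := by
  unfold Sel
  rw [NL.congr h]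
  refine and_congr_right fun _ => forall_congr' fun c' => ?_
  rw [NL.congr h]

lemma Sel.unique {T : ℕ → ℕ → Prop} {V K S X Y0 E W d c c' : ℕ}
    (h : Sel T V K S X Y0 E W d c) (h' : Sel T V K S X Y0 E W d c') : c = c' := by
  rcases lt_trichotomy c c' with hlt | heq | hgt
  · exact absurd h.1.2 (h'.2 c hlt h.1.1)
  · exact heq
  · exact absurd h'.1.2 (h.2 c' hgt h'.1.1)

lemma count_lt {Z : ℕ} (hZ : 2 ≤ Z) : Z * Lc Z < 2 ^ (Z ^ 3) := by
  have h1 : Z * Lc Z ≤ Z ^ (Z + 1) := by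
    rw [pow_succ, mul_comm]
    exact Nat.mul_le_mul_right _ (Lc_le_pow Z)
  refine lt_of_le_of_lt h1 ?_
  calc Z ^ (Z + 1) ≤ (2 ^ Z) ^ (Z + 1) := Nat.pow_le_pow_left (Nat.lt_two_pow_self).le _
    _ = 2 ^ (Z * (Z + 1)) := by rw [← pow_mul]
    _ < 2 ^ (Z ^ 3) := by
        refine Nat.pow_lt_pow_right (by norm_num) ?_
        have : Z ^ 3 = Z * Z * Z := by ring
        nlinarith

lemma exists_sel (T : ℕ → ℕ → Prop) (V K S Y0 : ℕ) {Z X : ℕ} (hZ : 2 ≤ Z) (hX : Z ^ 3 = X) :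
    ∃ c ≤ 2 ^ (X ^ 5), Sel T V K S X Y0 Z (Lc Z) (Lc X) c := by
  classical
  have hX2 : 2 ≤ X := by
    rw [← hX]
    calc 2 ≤ Z := hZ
      _ ≤ Z ^ 3 := Nat.le_self_pow (by norm_num) Z
  set F : ℕ × ℕ → Finset ℕ := fun p => (range X).filter (fun x => Listed T V K S X Y0 p.1 p.2 x)
    with hF
  have hcard : ((range Z ×ˢ range (Lc Z)).image F).card < ((range X).powerset).card := by
    refine lt_of_le_of_lt Finset.card_image_le ?_
    rw [card_product, card_range, card_range, card_powerset, card_range, ← hX]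
    exact count_lt hZ
  obtain ⟨h, hh, hnot⟩ := Finset.exists_mem_notMem_of_card_lt_card hcard
  rw [mem_powerset] at hh
  have hdd : ∀ i, 1 ≤ i → i ≤ X → i ∣ Lc X := fun i h1 h2 => dvd_Lc h1 h2
  have hNL : NL T V K S X Y0 Z (Lc Z) (Lc X) (code (Lc X) h) := by
    intro e he w hw
    by_contra hcon
    push Not at hcon
    apply hnot
    rw [mem_image]
    refine ⟨(e, w), by simp [he, hw], ?_⟩
    ext x
    simp only [hF, mem_filter, mem_range]
    constructor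
    · rintro ⟨hx, hl⟩
      exact (bit_code hdd (Lc_pos X) hh hx).1 ((hcon x hx).2 hl)
    · intro hx
      have hxX := mem_range.1 (hh hx)
      exact ⟨hxX, (hcon x hxX).1 ((bit_code hdd (Lc_pos X) hh hxX).2 hx)⟩
  have hex : ∃ c, 0 < c ∧ NL T V K S X Y0 Z (Lc Z) (Lc X) c := ⟨_, code_pos _ _, hNL⟩
  refine ⟨Nat.find hex, ?_, Nat.find_spec hex, fun c' hc' h0 hn => ?_⟩
  · exact (Nat.find_min' hex ⟨code_pos _ _, hNL⟩).trans (code_le_two_pow hX2 hh)
  · exact Nat.find_min hex hc' ⟨h0, hn⟩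

lemma le_cube {Z X : ℕ} (hX : Z ^ 3 = X) : Z ≤ X := by
  rw [← hX]
  exact Nat.le_self_pow (by norm_num) Z

theorem diagF_mem : InA 8 diagF := by
  classical
  obtain ⟨N0, hN0⟩ := eventually_atTop.1 (growth 6)
  refine ⟨PhiD, D.PhiD, 1, 1, N0 + 8, fun X hX => ⟨0, by simp; omega, fun y hy x hx => ?_⟩⟩
  rw [pow_one] at hy
  have hg : ∀ j, (B j X + 2) ^ 6 ≤ B (j + 1) X := fun j => hN0 _ ((by omega : N0 ≤ X).trans (le_B j X))
  have hy' : ∀ j ≤ 8, B j X ≤ y := fun j hj => (B_mono_left hj X).trans hy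
  have hp5 : ∀ Y, 2 * Y ^ 5 ≤ (Y + 2) ^ 6 := by
    intro Y
    calc 2 * Y ^ 5 ≤ (Y + 2) * (Y + 2) ^ 5 := by
          apply Nat.mul_le_mul (by omega)
          exact Nat.pow_le_pow_left (by omega) 5
      _ = (Y + 2) ^ 6 := by ring
  have hcode : ∀ j ≤ 6, 2 ^ ((B j X) ^ 5) ≤ y := by
    intro j hj
    refine le_trans ?_ (hy' (j + 2) (by omega))
    exact two_pow_le_Lc' ((hp5 _).trans (hg j))
  have hWy : ∀ {Z : ℕ}, Z ^ 3 = X → Lc Z ≤ y := fun hZ =>
    (Lc_mono (le_cube hZ)).trans (hy' 1 (by norm_num))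
  unfold PhiD
  simp only [Matrix.cons_val_zero, Matrix.cons_val]
  constructor
  · rintro ⟨Z, hZ, c, hSel, hbit⟩
    have hZ2 : 2 ≤ Z := by
      by_contra hcon
      have : Z = 0 ∨ Z = 1 := by omega
      rcases this with h | h <;> rw [h] at hZ <;> omega
    have hZX : Z ≤ X := le_cube hZ
    set S := B 5 X with hS
    set V := B 3 X with hV
    set h : Finset ℕ := ((range Z ×ˢ range S).filter (fun p => Tb V Z S p.1 p.2)).image
      (fun p => Nat.pair p.1 p.2) with hh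
    have hpair : ∀ e < Z, ∀ s < S, Nat.pair e s < B 6 X := by
      intro e he s hs
      refine lt_of_lt_of_le (pair_lt e s) (le_trans ?_ (hg 5))
      have h1 : e + s + 1 ≤ 2 * (S + 2) := by
        have : Z ≤ S := hZX.trans (le_B 5 X)
        omega
      calc (e + s + 1) ^ 2 ≤ (2 * (S + 2)) ^ 2 := Nat.pow_le_pow_left h1 2
        _ ≤ ((S + 2) * (S + 2)) ^ 2 := by
            refine Nat.pow_le_pow_left (Nat.mul_le_mul_right _ (by omega)) 2
        _ = (S + 2) ^ 4 := by ring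
        _ ≤ (S + 2) ^ 6 := Nat.pow_le_pow_right (by omega) (by norm_num)
    have hhN : h ⊆ range (B 6 X) := by
      intro i hi
      rw [hh, mem_image] at hi
      obtain ⟨⟨e, s⟩, hes, rfl⟩ := hi
      rw [mem_filter, mem_product, mem_range, mem_range] at hes
      exact mem_range.2 (hpair e hes.1.1 s hes.1.2)
    have hdd : ∀ i, 1 ≤ i → i ≤ B 6 X → i ∣ B 7 X := fun i h1 h2 => dvd_Lc h1 h2
    have hbits : ∀ e < Z, ∀ s < S, (bit (code (B 7 X) h) (B 7 X) (Nat.pair e s) ↔ Tb V Z S e s) := by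
      intro e he s hs
      rw [bit_code hdd (Lc_pos _) hhN (hpair e he s hs), hh, mem_image]
      constructor
      · rintro ⟨⟨e', s'⟩, hes, heq⟩
        rw [mem_filter] at hes
        obtain ⟨h1, h2⟩ := Nat.pair_eq_pair.1 heq
        simp only at h1 h2
        rw [← h1, ← h2]
        exact hes.2
      · intro ht
        exact ⟨(e, s), by simp [he, hs, ht], rfl⟩
    have hB6 : 2 ≤ B 6 X := le_trans (by omega) (le_B 6 X)
    refine ⟨Z, hZX, hZ, B 2 X, hy' 2 (by norm_num), rfl, V, hy' 3 (by norm_num), rfl,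
      S, hy' 5 (by norm_num), rfl, B 7 X, hy' 7 (by norm_num), rfl, Lc Z, hWy hZ, rfl,
      Lc X, hy' 1 (by norm_num), rfl, code (B 7 X) h,
      (code_le_two_pow hB6 hhN).trans (hcode 6 le_rfl), ?_, c, ?_, ?_, hbit⟩
    · intro e he s hs
      rw [hbits e he s hs, Tb_iff]
      exact Clause.congr (fun e' he' s' hs' => (hbits e' (he'.trans he) s' hs').symm) hs
    · obtain ⟨c1, hc1, hSel1⟩ := exists_sel (Tb V Z S) V Z S (B 2 X) hZ2 hZ
      rw [hSel.unique hSel1]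
      exact hc1.trans (hcode 0 (by norm_num))
    · exact (Sel.congr hbits _ _ _).2 hSel
  · rintro ⟨Z, hZX, hZ, Y0, _, hY0, V, _, hV, S, _, hS, dT, _, hdT, W, _, hW, d, _, hd,
      cT, _, hTab, c, _, hSel, hbit⟩
    rw [hV, hS, hdT] at hTab
    rw [hV, hS, hdT, hY0, hW, hd] at hSel
    rw [hd] at hbit
    refine ⟨Z, hZ, c, ?_, hbit⟩
    exact (Sel.congr (table_unique hTab) _ _ _).1 hSel

end Pool.Agent.LIO
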