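import Pool.Agent.MP_eae0ed_lc.Diag

set_option autoImplicit false
set_option linter.unusedVariables false

open Filter

namespace Pool.Agent.LIO

open Finset

/-! ### The graph of exponentiation is `Δ₀` -/

/-- powers of two -/
def IsP2 (p : ℕ) : Prop := 0 < p ∧ ∀ d ≤ p, d ∣ p → d = 1 ∨ 2 ∣ d

lemma isP2_iff (p : ℕ) : IsP2 p ↔ ∃ k, p = 2 ^ k := by
  constructor
  · rintro ⟨h0, h⟩
    rcases Nat.eq_two_pow_or_exists_odd_prime_and_dvd p with ⟨k, hk⟩ | ⟨q, hq, hqp, hodd⟩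
    · exact ⟨k, hk⟩
    · rcases h q (Nat.le_of_dvd h0 hqp) hqp with h1 | h1
      · exact absurd h1 hq.one_lt.ne'
      · exact absurd h1 (by rw [← even_iff_two_dvd]; exact Nat.not_even_iff_odd.2 hodd)
  · rintro ⟨k, rfl⟩
    refine ⟨by positivity, fun d _ hd => ?_⟩
    obtain ⟨j, hj, rfl⟩ := (Nat.dvd_prime_pow Nat.prime_two).1 hd
    rcases j with _ | j
    · left; rfl
    · right
      exact ⟨2 ^ j, by rw [pow_succ]; ring⟩

lemma D.isP2 {n : ℕ} {f : (Fin n → ℕ) → ℕ} (hf : F0 f) : D (fun v => IsP2 (f v)) := by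
  unfold IsP2
  refine D.and (D.lt (F0.const 0) hf) ?_
  refine D.ballLe (P := fun d v => d ∣ f v → d = 1 ∨ 2 ∣ d) hf ?_
  exact D.imp (D.dvd (F0.var _) hf.weaken) (D.or (D.eq (F0.var _) (F0.const 1))
    (D.dvd (F0.const 2) (F0.var _)))

/-- the `Δ₀` definition of `y = 2 ^ x` -/
def ExpRel (C x y : ℕ) : Prop :=
  ∃ s ≤ x + 1, ∃ Q ≤ 2 * x + 2, ∃ r < s, ∃ q ≤ Q, x < Q ∧
    (∃ σ < y + C, Nat.beta σ 0 = 1 ∧ (∀ i < s, Nat.beta σ (i + 1) = 2 * Nat.beta σ i) ∧
      Nat.beta σ s = Q ∧ Nat.beta σ r = q) ∧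
    ∃ p ≤ y, IsP2 p ∧ (Q - 1) ∣ (p - 1) ∧ y = p * q ∧
      ∃ R ≤ 2 * y ^ 2, R % Q = 0 ∧
        (∀ p' < p, IsP2 p' → (Q - 1) ∣ (p' - 1) → (R / (p' * Q)) % Q = (R / p') % Q + s) ∧
        (R / p) % Q + r = x

lemma two_pow_sub_dvd {s k : ℕ} (hs : 0 < s) (h : (2 ^ s - 1) ∣ (2 ^ k - 1)) : s ∣ k := by
  have h1 : Nat.gcd (2 ^ s - 1) (2 ^ k - 1) = 2 ^ (Nat.gcd s k) - 1 :=
    Nat.pow_sub_one_gcd_pow_sub_one 2 s k
  rw [Nat.gcd_eq_left h] at h1
  have h2 : 1 ≤ 2 ^ s := Nat.one_le_two_pow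
  have h3 : 1 ≤ 2 ^ (Nat.gcd s k) := Nat.one_le_two_pow
  have h4 : 2 ^ s = 2 ^ (Nat.gcd s k) := by omega
  have h5 : s = Nat.gcd s k := Nat.pow_right_injective (le_refl 2) h4
  rw [h5]
  exact Nat.gcd_dvd_right s k

lemma digits_exist (Q s : ℕ) (hQ : 0 < Q) : ∀ t, t * s < Q → ∃ R < Q ^ (t + 1),
    ∀ i ≤ t, (R / Q ^ i) % Q = i * s := by
  intro t
  induction t with
  | zero =>
    intro _
    refine ⟨0, by positivity, fun i hi => ?_⟩
    have : i = 0 := by omega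
    subst this
    simp
  | succ t ih =>
    intro ht
    obtain ⟨R, hR, h⟩ := ih (by nlinarith)
    refine ⟨R + (t + 1) * s * Q ^ (t + 1), ?_, fun i hi => ?_⟩
    · have h1 : Q ^ (t + 1 + 1) = Q * Q ^ (t + 1) := by rw [pow_succ]; ring
      have h2 : (t + 1) * s + 1 ≤ Q := ht
      calc R + (t + 1) * s * Q ^ (t + 1) < Q ^ (t + 1) + (t + 1) * s * Q ^ (t + 1) := by omega
        _ = ((t + 1) * s + 1) * Q ^ (t + 1) := by ring
        _ ≤ Q * Q ^ (t + 1) := Nat.mul_le_mul_right _ h2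
        _ = Q ^ (t + 1 + 1) := h1.symm
    · rcases lt_or_eq_of_le hi with hlt | rfl
      · have h3 : Q ^ (t + 1) = Q ^ i * (Q * Q ^ (t - i)) := by
          rw [← mul_assoc, ← pow_succ, ← pow_add]
          congr 1
          omega
        have h4 : (t + 1) * s * Q ^ (t + 1) = Q ^ i * (Q * (Q ^ (t - i) * ((t + 1) * s))) := by
          rw [h3]; ring
        rw [h4, Nat.add_mul_div_left _ _ (by positivity), Nat.add_mul_mod_self_left]
        exact h i (by omega)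
      · rw [Nat.add_mul_div_right _ _ (by positivity), Nat.div_eq_of_lt hR, zero_add,
          Nat.mod_eq_of_lt ht]

lemma expRel_sound {C x y : ℕ} (h : ExpRel C x y) : y = 2 ^ x := by
  obtain ⟨s, _, Q, _, r, hr, q, _, hxQ, ⟨σ, _, h0, hstep, hQ, hq⟩, p, _, hp2, hdvd, hy, R, _,
    hR0, hRstep, hRx⟩ := h
  have hs : 0 < s := by omega
  have hσ : ∀ i ≤ s, Nat.beta σ i = 2 ^ i := by
    intro i
    induction i with
    | zero => intro _; rw [h0]; rfl
    | succ i ih =>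
      intro hi
      rw [hstep i (by omega), ih (by omega), pow_succ]; ring
  rw [hσ s le_rfl] at hQ
  rw [hσ r hr.le] at hq
  subst hQ hq
  obtain ⟨k, hk⟩ := (isP2_iff p).1 hp2
  subst hk
  obtain ⟨t, rfl⟩ := two_pow_sub_dvd hs hdvd
  have hdig : ∀ i ≤ t, (R / 2 ^ (s * i)) % 2 ^ s = i * s := by
    intro i
    induction i with
    | zero => intro _; simpa using hR0
    | succ i ih =>
      intro hi
      have h1 := hRstep (2 ^ (s * i)) (Nat.pow_lt_pow_right (by norm_num)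
        (Nat.mul_lt_mul_of_pos_left (by omega) hs)) ((isP2_iff _).2 ⟨_, rfl⟩)
        (by rw [pow_mul]; simpa using Nat.sub_dvd_pow_sub_pow (2 ^ s) 1 i)
      rw [ih (by omega), ← pow_add] at h1
      have h2 : s * (i + 1) = s * i + s := by ring
      rw [h2, h1]
      ring
  rw [hdig t le_rfl] at hRx
  rw [hy, ← pow_add, ← hRx]
  congr 1
  ring

lemma exists_C : ∃ C, ∀ x, Sb (Nat.log 2 x + 2) (2 ^ (Nat.log 2 x + 1) + 1) ≤ 2 ^ x + C := by
  have hlog : Tendsto (fun x : ℕ => Nat.log 2 x) atTop atTop := by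
    apply tendsto_atTop.2
    intro b
    filter_upwards [eventually_ge_atTop (2 ^ b)] with x hx
    exact (Nat.le_log_iff_pow_le (by norm_num) (by have := Nat.one_le_two_pow (n := b); omega)).2 hx
  have h1 := hlog.eventually (eventually_pow_lt_two_pow 5)
  have h2 := hlog.eventually (eventually_ge_atTop 6)
  obtain ⟨X1, hX1⟩ := eventually_atTop.1 (h1.and h2)
  refine ⟨∑ x ∈ range (X1 + 1), Sb (Nat.log 2 x + 2) (2 ^ (Nat.log 2 x + 1) + 1), fun x => ?_⟩
  rcases le_or_gt X1 x with hx | hx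
  · refine le_trans ?_ (Nat.le_add_right _ _)
    obtain ⟨h3, h4⟩ := hX1 x hx
    set l := Nat.log 2 x with hl
    have h5 : 2 ^ l ≤ x := Nat.pow_log_le_self 2 (by
      rintro rfl
      simp at hl
      omega)
    set m := l + 2 with hm
    have hm8 : 8 ≤ m := by omega
    have hLm : Lc m ≤ 2 ^ (m * m) := Lc_le_two_pow m
    have hmp : m ≤ 2 ^ m := (Nat.lt_two_pow_self).le
    have hV : 2 ^ (l + 1) + 1 ≤ 2 ^ m := by
      rw [hm, pow_succ, pow_succ, pow_succ]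
      have : 1 ≤ 2 ^ l := Nat.one_le_two_pow
      omega
    have hA : Lc m * (2 ^ (l + 1) + 1) ≤ 2 ^ (m * m + m) := by
      rw [pow_add 2 (m * m) m]
      exact Nat.mul_le_mul hLm hV
    have hB : m * (Lc m * (2 ^ (l + 1) + 1)) + 1 ≤ 2 ^ (m * m + 2 * m + 1) := by
      have h6 : m * (Lc m * (2 ^ (l + 1) + 1)) ≤ 2 ^ (m * m + 2 * m) := by
        have : m * m + 2 * m = m + (m * m + m) := by ring
        rw [this, pow_add 2 m (m * m + m)]
        exact Nat.mul_le_mul hmp hA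
      rw [pow_succ 2 (m * m + 2 * m)]
      have : 1 ≤ 2 ^ (m * m + 2 * m) := Nat.one_le_two_pow
      omega
    have hCC : (m * (Lc m * (2 ^ (l + 1) + 1)) + 1) ^ m ≤ 2 ^ ((m * m + 2 * m + 1) * m) := by
      rw [pow_mul]
      exact Nat.pow_le_pow_left hB m
    have hD : Lc m * (2 ^ (l + 1) + 1) + 1 ≤ 2 ^ ((m * m + 2 * m + 1) * m) := by
      have h7 : m * m + m + 1 ≤ (m * m + 2 * m + 1) * m := by nlinarith
      refine le_trans ?_ (Nat.pow_le_pow_right (by norm_num) h7)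
      rw [pow_succ 2 (m * m + m)]
      have : 1 ≤ 2 ^ (m * m + m) := Nat.one_le_two_pow
      omega
    unfold Sb
    calc ((m * (Lc m * (2 ^ (l + 1) + 1)) + 1) ^ m + Lc m * (2 ^ (l + 1) + 1) + 1) ^ 2
        ≤ (2 ^ ((m * m + 2 * m + 1) * m) + 2 ^ ((m * m + 2 * m + 1) * m)) ^ 2 :=
          Nat.pow_le_pow_left (by omega) 2
      _ = 2 ^ (((m * m + 2 * m + 1) * m + 1) * 2) := by
          rw [← two_mul, ← pow_succ', ← pow_mul]
      _ ≤ 2 ^ x := by
          refine Nat.pow_le_pow_right (by norm_num) ?_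
          refine le_trans ?_ h5
          refine le_trans ?_ h3.le
          have h8 : m * m + 2 * m + 1 = (l + 3) ^ 2 := by rw [hm]; ring
          rw [h8, hm]
          have h9 : (l + 3) ^ 2 * (l + 2) = l ^ 3 + 8 * l ^ 2 + 21 * l + 18 := by ring
          have h10 : l ^ 5 = (l ^ 2) * l ^ 3 := by ring
          have h11 : 36 ≤ l ^ 2 := by nlinarith
          have h12 : 36 * l ^ 3 ≤ l ^ 5 := by
            rw [h10]
            exact Nat.mul_le_mul_right _ h11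
          have h13 : 6 * l ^ 2 ≤ l ^ 3 := by
            have : l ^ 3 = l * l ^ 2 := by ring
            rw [this]
            exact Nat.mul_le_mul_right _ h4
          have h14 : 6 * l ≤ l ^ 2 := by nlinarith
          rw [h9]
          omega
  · refine le_trans ?_ (Nat.le_add_left _ _)
    exact Finset.single_le_sum (f := fun x => Sb (Nat.log 2 x + 2) (2 ^ (Nat.log 2 x + 1) + 1))
      (fun _ _ => Nat.zero_le _) (mem_range.2 (by omega))

lemma expRel_complete {C : ℕ}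
    (hC : ∀ x, Sb (Nat.log 2 x + 2) (2 ^ (Nat.log 2 x + 1) + 1) ≤ 2 ^ x + C) (x : ℕ) :
    ExpRel C x (2 ^ x) := by
  set s := Nat.log 2 x + 1 with hs
  have hs0 : 0 < s := by omega
  have hxQ : x < 2 ^ s := Nat.lt_pow_succ_log_self (by norm_num) x
  have hQx : 2 ^ s ≤ 2 * x + 2 := by
    rw [hs, pow_succ]
    rcases Nat.eq_zero_or_pos x with rfl | hx
    · simp
    · have := Nat.pow_log_le_self 2 (by omega : x ≠ 0)
      omega
  have hx2 : x < 2 ^ x := Nat.lt_two_pow_self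
  obtain ⟨σ, hσ, hσb⟩ := exists_beta (s + 1) (2 ^ s + 1) (fun i => 2 ^ i) (fun j hj => by
    have : 2 ^ j ≤ 2 ^ s := Nat.pow_le_pow_right (by norm_num) (by omega)
    omega)
  have hts : x / s * s ≤ x := Nat.div_mul_le_self x s
  obtain ⟨R, hR, hdig⟩ := digits_exist (2 ^ s) s (by positivity) (x / s) (by omega)
  have hyp : 2 ^ x = 2 ^ (s * (x / s)) * 2 ^ (x % s) := by
    rw [← pow_add, Nat.div_add_mod]
  have hpow : ∀ i, (2 ^ s) ^ i = 2 ^ (s * i) := fun i => (pow_mul 2 s i).symm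
  refine ⟨s, ?_, 2 ^ s, hQx, x % s, Nat.mod_lt _ hs0, 2 ^ (x % s),
    Nat.pow_le_pow_right (by norm_num) (Nat.mod_lt _ hs0).le, hxQ,
    ⟨σ, ?_, ?_, ?_, ?_, ?_⟩, 2 ^ (s * (x / s)), ?_, (isP2_iff _).2 ⟨_, rfl⟩, ?_, hyp, R, ?_, ?_, ?_, ?_⟩
  · have := Nat.log_le_self 2 x
    omega
  · exact lt_of_lt_of_le hσ (hC x)
  · rw [hσb 0 (by omega)]
    simp
  · intro i hi
    rw [hσb _ (by omega), hσb _ (by omega)]
    simp only [pow_succ]
    ring
  · exact hσb s (by omega)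
  · have := Nat.mod_lt x hs0
    exact hσb _ (by omega)
  · exact Nat.pow_le_pow_right (by norm_num) (by rw [mul_comm]; exact hts)
  · rw [← hpow]
    simpa using Nat.sub_dvd_pow_sub_pow (2 ^ s) 1 (x / s)
  · refine hR.le.trans ?_
    rw [pow_succ, hpow]
    have h1 : 2 ^ (s * (x / s)) ≤ 2 ^ x :=
      Nat.pow_le_pow_right (by norm_num) (by rw [mul_comm]; exact hts)
    calc 2 ^ (s * (x / s)) * 2 ^ s ≤ 2 ^ x * (2 * 2 ^ x) := Nat.mul_le_mul h1 (by omega)
      _ = 2 * (2 ^ x) ^ 2 := by ring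
  · have := hdig 0 (Nat.zero_le _)
    simpa using this
  · intro p' hp' hp2 hdvd
    obtain ⟨k, rfl⟩ := (isP2_iff p').1 hp2
    obtain ⟨i, rfl⟩ := two_pow_sub_dvd hs0 hdvd
    have hi : i < x / s := by
      have := (Nat.pow_lt_pow_iff_right (by norm_num : 1 < 2)).1 hp'
      exact Nat.lt_of_mul_lt_mul_left this
    have h1 := hdig i hi.le
    have h2 := hdig (i + 1) hi
    rw [hpow] at h1 h2
    have h3 : s * (i + 1) = s * i + s := by ring
    rw [h3] at h2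
    rw [← pow_add, h2, h1]
    ring
  · have := hdig (x / s) le_rfl
    rw [hpow] at this
    rw [this, mul_comm, Nat.div_add_mod]

lemma D.expRel (C : ℕ) : D (fun v : Fin 2 → ℕ => ExpRel C (v 0) (v 1)) := by
  unfold ExpRel
  refine D.bexLe (F0.add (F0.var _) (F0.const 1)) ?_
  refine D.bexLe (F0.add (F0.mul (F0.const 2) (F0.var _)) (F0.const 2)) ?_
  refine D.bex (F0.var _) ?_
  refine D.bexLe (F0.var _) ?_
  refine D.and (D.lt (F0.var _) (F0.var _)) ?_
  refine D.and ?_ ?_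
  · refine D.bex (F0.add (F0.var _) (F0.const C)) ?_
    refine D.and (D.eq (F0.beta (F0.var _) (F0.const 0)) (F0.const 1)) ?_
    refine D.and (D.ball (F0.var _) (D.eq (F0.beta (F0.var _) (F0.add (F0.var _) (F0.const 1)))
      (F0.mul (F0.const 2) (F0.beta (F0.var _) (F0.var _))))) ?_
    exact D.and (D.eq (F0.beta (F0.var _) (F0.var _)) (F0.var _))
      (D.eq (F0.beta (F0.var _) (F0.var _)) (F0.var _))
  refine D.bexLe (F0.var _) ?_
  refine D.and (D.isP2 (F0.var _)) ?_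
  refine D.and (D.dvd (F0.sub (F0.var _) (F0.const 1)) (F0.sub (F0.var _) (F0.const 1))) ?_
  refine D.and (D.eq (F0.var _) (F0.mul (F0.var _) (F0.var _))) ?_
  refine D.bexLe (F0.mul (F0.const 2) (F0.pow (F0.var _) 2)) ?_
  refine D.and (D.eq (F0.mod (F0.var _) (F0.var _)) (F0.const 0)) ?_
  refine D.and ?_ (D.eq (F0.add (F0.mod (F0.div (F0.var _) (F0.var _)) (F0.var _)) (F0.var _))
    (F0.var _))
  refine D.ball (F0.var _) ?_
  refine D.imp (D.isP2 (F0.var _)) ?_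
  refine D.imp (D.dvd (F0.sub (F0.var _) (F0.const 1)) (F0.sub (F0.var _) (F0.const 1))) ?_
  exact D.eq (F0.mod (F0.div (F0.var _) (F0.mul (F0.var _) (F0.var _))) (F0.var _))
    (F0.add (F0.mod (F0.div (F0.var _) (F0.var _)) (F0.var _)) (F0.var _))

/-- **Bennett's theorem**: the graph of `2 ^ x` is `Δ₀`. -/
theorem D.exp : D (fun v : Fin 2 → ℕ => v 1 = 2 ^ v 0) := by
  obtain ⟨C, hC⟩ := exists_C
  refine (D.expRel C).congr (fun v => ⟨expRel_sound, fun h => ?_⟩)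
  rw [h]
  exact expRel_complete hC _

end Pool.Agent.LIO
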