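import Mathlib

/-!
# The language of arithmetic, bounded formulas, models of `IΔ₀`

All definitions used by the statement of the main theorem are in this file.
-/

set_option autoImplicit false

open FirstOrder

namespace Pool.Agent.LIO

/-- Function symbols `0, 1, +, *`. -/
inductive ArithFunc : ℕ → Type
  | zero : ArithFunc 0
  | one : ArithFunc 0
  | add : ArithFunc 2
  | mul : ArithFunc 2

/-- Relation symbol `<`. -/
inductive ArithRel : ℕ → Type
  | lt : ArithRel 2

/-- The language `{0, 1, +, *, <}` of first-order arithmetic. -/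
def arith : Language := ⟨ArithFunc, ArithRel⟩

/-- The standard model. -/
instance instNatStructure : arith.Structure ℕ where
  funMap := fun {_} f =>
    match f with
    | ArithFunc.zero => fun _ => 0
    | ArithFunc.one => fun _ => 1
    | ArithFunc.add => fun x => x 0 + x 1
    | ArithFunc.mul => fun x => x 0 * x 1
  RelMap := fun {_} r =>
    match r with
    | ArithRel.lt => fun x => x 0 < x 1

/-- The atomic formula `s < t`. -/
def ltF {α : Type} {n : ℕ} (s t : arith.Term (α ⊕ Fin n)) : arith.BoundedFormula α n :=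
  Language.BoundedFormula.rel (L := arith) (l := 2) ArithRel.lt ![s, t]

/-- A term in the variables `< n` seen as a term in the variables `< n + 1`
(so the new variable `n` does not occur in it). -/
def liftT {α : Type} {n : ℕ} (t : arith.Term (α ⊕ Fin n)) : arith.Term (α ⊕ Fin (n + 1)) :=
  t.relabel (Sum.map id Fin.castSucc)

/-- The variable bound by the next quantifier. -/
def newVar {α : Type} {n : ℕ} : arith.Term (α ⊕ Fin (n + 1)) :=
  Language.Term.var (Sum.inr (Fin.last n))

/-- `Δ₀` formulas: every quantifier is bounded by a term of the language, that is, occurs in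
the form `∀ x, x < t → φ` or `∃ x, x < t ∧ φ` with `x` not in `t`. The primitive connectives are
falsum and implication, as in Mathlib. -/
inductive IsDelta0 {α : Type} : ∀ {n : ℕ}, arith.BoundedFormula α n → Prop
  | falsum {n : ℕ} : IsDelta0 (⊥ : arith.BoundedFormula α n)
  | equal {n : ℕ} (s t : arith.Term (α ⊕ Fin n)) : IsDelta0 (Language.BoundedFormula.equal s t)
  | less {n : ℕ} (s t : arith.Term (α ⊕ Fin n)) : IsDelta0 (ltF s t)
  | imp {n : ℕ} {φ ψ : arith.BoundedFormula α n} :
      IsDelta0 φ → IsDelta0 ψ → IsDelta0 (φ.imp ψ)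
  | ball {n : ℕ} (t : arith.Term (α ⊕ Fin n)) {φ : arith.BoundedFormula α (n + 1)} :
      IsDelta0 φ → IsDelta0 ((ltF newVar (liftT t)).imp φ).all
  | bex {n : ℕ} (t : arith.Term (α ⊕ Fin n)) {φ : arith.BoundedFormula α (n + 1)} :
      IsDelta0 φ → IsDelta0 (ltF newVar (liftT t) ⊓ φ).ex

/-- `Δ₀` formulas with free variables among `x_0, ..., x_{k-1}`. -/
abbrev Delta0 (k : ℕ) : Type := {θ : arith.Formula (Fin k) // IsDelta0 θ}

section Sem

variable {M : Type} [arith.Structure M]

/-- The interpretation of `0`. -/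
def zeroM (M : Type) [arith.Structure M] : M :=
  Language.Structure.funMap (L := arith) (n := 0) ArithFunc.zero ![]

/-- The interpretation of `1`. -/
def oneM (M : Type) [arith.Structure M] : M :=
  Language.Structure.funMap (L := arith) (n := 0) ArithFunc.one ![]

/-- The interpretation of `+`. -/
def addM (a b : M) : M :=
  Language.Structure.funMap (L := arith) (n := 2) ArithFunc.add ![a, b]

/-- The interpretation of `*`. -/
def mulM (a b : M) : M :=
  Language.Structure.funMap (L := arith) (n := 2) ArithFunc.mul ![a, b]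

/-- The interpretation of `<`. -/
def ltM (a b : M) : Prop :=
  Language.Structure.RelMap (L := arith) (n := 2) ArithRel.lt ![a, b]

/-- The element of `M` named by the standard number `k`. -/
def numM (M : Type) [arith.Structure M] : ℕ → M
  | 0 => zeroM M
  | k + 1 => addM (numM M k) (oneM M)

/-- Powers `a ^ k` in `M` with a standard exponent `k`. -/
def powM (a : M) : ℕ → M
  | 0 => oneM M
  | k + 1 => mulM (powM a k) a

end Sem

/-- Models of `IΔ₀`: the axioms of (the nonnegative parts of) discretely ordered rings, and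
induction for `Δ₀` formulas with parameters. -/
structure ModelsIDelta0 (M : Type) [arith.Structure M] : Prop where
  add_assoc : ∀ a b c : M, addM (addM a b) c = addM a (addM b c)
  add_comm : ∀ a b : M, addM a b = addM b a
  mul_assoc : ∀ a b c : M, mulM (mulM a b) c = mulM a (mulM b c)
  mul_comm : ∀ a b : M, mulM a b = mulM b a
  mul_add : ∀ a b c : M, mulM a (addM b c) = addM (mulM a b) (mulM a c)
  add_zero : ∀ a : M, addM a (zeroM M) = a
  mul_zero : ∀ a : M, mulM a (zeroM M) = zeroM M
  mul_one : ∀ a : M, mulM a (oneM M) = a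
  lt_irrefl : ∀ a : M, ¬ ltM a a
  lt_trans : ∀ a b c : M, ltM a b → ltM b c → ltM a c
  lt_total : ∀ a b : M, ltM a b ∨ a = b ∨ ltM b a
  add_lt_add : ∀ a b c : M, ltM a b → ltM (addM a c) (addM b c)
  mul_lt_mul : ∀ a b c : M, ltM (zeroM M) c → ltM a b → ltM (mulM a c) (mulM b c)
  exists_add : ∀ a b : M, ltM a b → ∃ c : M, addM a c = b
  zero_lt_one : ltM (zeroM M) (oneM M)
  one_le_of_pos : ∀ a : M, ltM (zeroM M) a → oneM M = a ∨ ltM (oneM M) a
  zero_le : ∀ a : M, zeroM M = a ∨ ltM (zeroM M) a
  induction : ∀ (k : ℕ) (φ : arith.Formula (Fin (k + 1))), IsDelta0 φ → ∀ p : Fin k → M,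
    φ.Realize (Fin.cons (zeroM M) p : Fin (k + 1) → M) →
    (∀ x : M, φ.Realize (Fin.cons x p : Fin (k + 1) → M) →
      φ.Realize (Fin.cons (addM x (oneM M)) p : Fin (k + 1) → M)) →
    ∀ x : M, φ.Realize (Fin.cons x p : Fin (k + 1) → M)

/-- The formula `E(x, z)` defines the graph `z = 2 ^ x` of exponentiation in `ℕ`. -/
def DefinesExp (E : arith.Formula (Fin 2)) : Prop :=
  ∀ x z : ℕ, E.Realize ![x, z] ↔ z = 2 ^ x

/-- `y = 2 ^ x` in `M` (used for `M` elementarily equivalent to `ℕ`): `M ⊨ E(x, y)` for some
`Δ₀` formula `E` defining exponentiation in `ℕ`, and for every formula `E` doing so. -/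
def IsTwoPow {M : Type} [arith.Structure M] (x y : M) : Prop :=
  (∃ E : arith.Formula (Fin 2), IsDelta0 E ∧ DefinesExp E ∧ E.Realize ![x, y]) ∧
    ∀ E : arith.Formula (Fin 2), DefinesExp E → E.Realize ![x, y]

end Pool.Agent.LIO
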