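import Pool.Agent.MP_eae0ed_lc.Combin

set_option autoImplicit false
set_option linter.unusedVariables false

namespace Pool.Agent.LIO

open Finset

lemma D.comp2 {P : (Fin 2 → ℕ) → Prop} (hP : D P) {n : ℕ} {a b : (Fin n → ℕ) → ℕ}
    (ha : F0 a) (hb : F0 b) : D (fun v => P ![a v, b v]) := by
  refine D.bind (P := fun z v => P ![z, b v]) ha ?_
  refine D.bind (P := fun (z : ℕ) (v : Fin (n + 1) → ℕ) => P ![v (Fin.last _), z]) hb.weaken ?_
  exact (D.comp hP (f := ![fun v : Fin (n + 1 + 1) → ℕ => v (Fin.last n).castSucc,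
    fun v : Fin (n + 1 + 1) → ℕ => v (Fin.last (n + 1))]) (fun i => by
      fin_cases i <;> exact TT.var _)).congr (fun v => by
        apply iff_of_eq; congr 1; funext i; fin_cases i <;> rfl)

lemma D.comp3 {P : (Fin 3 → ℕ) → Prop} (hP : D P) {n : ℕ} {a b c : (Fin n → ℕ) → ℕ}
    (ha : F0 a) (hb : F0 b) (hc : F0 c) : D (fun v => P ![a v, b v, c v]) := by
  refine D.bind (P := fun z v => P ![z, b v, c v]) ha ?_
  refine D.bind (P := fun (z : ℕ) (v : Fin (n + 1) → ℕ) =>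
    P ![v (Fin.last _), z, c (fun i => v i.castSucc)]) hb.weaken ?_
  refine D.bind (P := fun (z : ℕ) (v : Fin (n + 1 + 1) → ℕ) =>
    P ![v (Fin.last _).castSucc, v (Fin.last _), z]) hc.weaken.weaken ?_
  exact (D.comp hP (f := ![fun v : Fin (n + 1 + 1 + 1) → ℕ => v (Fin.last n).castSucc.castSucc,
    fun v : Fin (n + 1 + 1 + 1) → ℕ => v (Fin.last (n + 1)).castSucc,
    fun v : Fin (n + 1 + 1 + 1) → ℕ => v (Fin.last (n + 1 + 1))]) (fun i => by
      fin_cases i <;> exact TT.var _)).congr (fun v => by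
        apply iff_of_eq; congr 1; funext i; fin_cases i <;> rfl)

lemma D.comp4 {P : (Fin 4 → ℕ) → Prop} (hP : D P) {n : ℕ} {a b c d : (Fin n → ℕ) → ℕ}
    (ha : F0 a) (hb : F0 b) (hc : F0 c) (hd : F0 d) : D (fun v => P ![a v, b v, c v, d v]) := by
  refine D.bind (P := fun z v => P ![z, b v, c v, d v]) ha ?_
  refine D.bind (P := fun (z : ℕ) (v : Fin (n + 1) → ℕ) =>
    P ![v (Fin.last _), z, c (fun i => v i.castSucc), d (fun i => v i.castSucc)]) hb.weaken ?_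
  refine D.bind (P := fun (z : ℕ) (v : Fin (n + 1 + 1) → ℕ) =>
    P ![v (Fin.last _).castSucc, v (Fin.last _), z, d (fun i => v i.castSucc.castSucc)])
    hc.weaken.weaken ?_
  refine D.bind (P := fun (z : ℕ) (v : Fin (n + 1 + 1 + 1) → ℕ) =>
    P ![v (Fin.last _).castSucc.castSucc, v (Fin.last _).castSucc, v (Fin.last _), z])
    hd.weaken.weaken.weaken ?_
  exact (D.comp hP (f := ![
    fun v : Fin (n + 1 + 1 + 1 + 1) → ℕ => v (Fin.last n).castSucc.castSucc.castSucc,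
    fun v : Fin (n + 1 + 1 + 1 + 1) → ℕ => v (Fin.last (n + 1)).castSucc.castSucc,
    fun v : Fin (n + 1 + 1 + 1 + 1) → ℕ => v (Fin.last (n + 1 + 1)).castSucc,
    fun v : Fin (n + 1 + 1 + 1 + 1) → ℕ => v (Fin.last (n + 1 + 1 + 1))]) (fun i => by
      fin_cases i <;> exact TT.var _)).congr (fun v => by
        apply iff_of_eq; congr 1; funext i; fin_cases i <;> rfl)

lemma D.bit {n : ℕ} {c d x : (Fin n → ℕ) → ℕ} (hc : F0 c) (hd : F0 d) (hx : F0 x) :
    D (fun v => bit (c v) (d v) (x v)) :=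
  D.dvd (F0.add (F0.mul (F0.add hx (F0.const 1)) hd) (F0.const 1)) hc

lemma F0.Sb {n : ℕ} (m : ℕ) {f : (Fin n → ℕ) → ℕ} (hf : F0 f) : F0 (fun v => Sb m (f v)) := by
  unfold LIO.Sb
  exact F0.pow (F0.add (F0.add (F0.pow (F0.add (F0.mul (F0.const m) (F0.mul (F0.const _) hf))
    (F0.const 1)) m) (F0.mul (F0.const _) hf)) (F0.const 1)) 2

/-- The compactness form of the assumption to be refuted, for the exponent `n`. -/
def Star (n : ℕ) : Prop :=
  ∀ Γ : (Fin 3 → ℕ) → Prop, D Γ → ∃ m : ℕ, ∃ G : (Fin 2 → ℕ) → Prop, D G ∧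
    ∀ v : ℕ, ∃ j < m, ¬ (Γ ![v, 2 ^ (v ^ n), j] ↔ G ![j, v])

/-- The class `A_k`. -/
def InA (k : ℕ) (f : ℕ → ℕ → Prop) : Prop :=
  ∃ Φ : (Fin 4 → ℕ) → Prop, D Φ ∧ ∃ c r X0 : ℕ, ∀ X, X0 ≤ X → ∃ w < X ^ c,
    ∀ y, B k (X ^ r) ≤ y → ∀ x < X, (f x X ↔ Φ ![x, w, X, y])

/-- The tuple-consistency condition. -/
def Avoids (G : (Fin 2 → ℕ) → Prop) (m w X U : ℕ) (h : ℕ → Prop) : Prop :=
  ∀ s < Sb m X, (∀ j < m, Nat.beta s j < X) →
    ∃ j < m, ¬ (h (Nat.beta s j) ↔ G ![j, Nat.pair s (Nat.pair w (Nat.pair X U))])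

/-- The new defining relation of Lemma L. -/
def PhiL (G : (Fin 2 → ℕ) → Prop) (m k r : ℕ) (v : Fin 4 → ℕ) : Prop :=
  ∃ d ≤ v 3, ∃ u ≤ v 3, d = Lc (v 2) ∧ u = B k (v 2 ^ r) ∧ ∃ c ≤ v 3,
    (0 < c ∧ ∀ c' < c, 0 < c' → ∃ x' < v 2, ¬ (bit c' d x' ↔ bit c d x')) ∧
    c % (Nat.unpair (Nat.unpair (v 1)).2).1 = (Nat.unpair (Nat.unpair (v 1)).2).2 ∧
    Avoids G m (Nat.unpair (v 1)).1 (v 2) (u ^ 2) (fun x' => bit c d x') ∧
    bit c d (v 0)

lemma D.PhiL {G : (Fin 2 → ℕ) → Prop} (hG : D G) (m k r : ℕ) : D (PhiL G m k r) := by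
  unfold LIO.PhiL Avoids
  refine D.bexLe (F0.var _) ?_
  refine D.bexLe (F0.var _) ?_
  refine D.and (D.eqLc (F0.var _) (F0.var _)) ?_
  refine D.and (D.eqB _ (F0.pow (F0.var _) _) (F0.var _)) ?_
  refine D.bexLe (F0.var _) ?_
  refine D.and (D.and (D.lt (F0.const 0) (F0.var _)) ?_) ?_
  · refine D.ball (F0.var _) ?_
    refine D.imp (D.lt (F0.const 0) (F0.var _)) ?_
    refine D.bex (F0.var _) ?_
    exact D.not (D.iff (D.bit (F0.var _) (F0.var _) (F0.var _))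
      (D.bit (F0.var _) (F0.var _) (F0.var _)))
  refine D.and (D.eq (F0.mod (F0.var _) (F0.fst (F0.snd (F0.var _))))
    (F0.snd (F0.snd (F0.var _)))) ?_
  refine D.and ?_ (D.bit (F0.var _) (F0.var _) (F0.var _))
  refine D.ball (F0.Sb m (F0.var _)) ?_
  refine D.imp ?_ ?_
  · refine D.ball (F0.const m) ?_
    exact D.lt (F0.beta (F0.var _) (F0.var _)) (F0.var _)
  · refine D.bex (F0.const m) ?_
    refine D.not (D.iff (D.bit (F0.var _) (F0.var _) (F0.beta (F0.var _) (F0.var _))) ?_)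
    refine D.comp2 hG (F0.var _) ?_
    exact F0.pair (F0.var _) (F0.pair (F0.fst (F0.var _)) (F0.pair (F0.var _)
      (F0.pow (F0.var _) _)))

lemma Avoids.congr {G : (Fin 2 → ℕ) → Prop} {m w X U : ℕ} {h h' : ℕ → Prop}
    (hA : Avoids G m w X U h) (hh : ∀ x < X, (h x ↔ h' x)) : Avoids G m w X U h' := by
  intro s hs hb
  obtain ⟨j, hj, hne⟩ := hA s hs hb
  exact ⟨j, hj, fun e => hne ((hh _ (hb j hj)).trans e)⟩

lemma code_le_two_pow {X : ℕ} (hX : 2 ≤ X) {h : Finset ℕ} (hh : h ⊆ range X) :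
    code (Lc X) h ≤ 2 ^ (X ^ 5) := by
  have h1 : X * Lc X + 1 ≤ X ^ (X + 2) := by
    have h2 := Lc_le_pow X
    have h3 : X * Lc X ≤ X ^ (X + 1) := by
      rw [pow_succ, mul_comm]
      exact Nat.mul_le_mul_right _ h2
    have h4 : X ^ (X + 2) = X ^ (X + 1) * X := pow_succ _ _
    have h5 : 1 ≤ X ^ (X + 1) := Nat.one_le_pow _ _ (by omega)
    nlinarith
  calc code (Lc X) h ≤ (X * Lc X + 1) ^ X := code_le hh
    _ ≤ (X ^ (X + 2)) ^ X := Nat.pow_le_pow_left h1 _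
    _ = X ^ ((X + 2) * X) := by rw [← pow_mul]
    _ ≤ (2 ^ X) ^ ((X + 2) * X) := Nat.pow_le_pow_left (Nat.lt_two_pow_self).le _
    _ = 2 ^ (X * ((X + 2) * X)) := by rw [← pow_mul]
    _ ≤ 2 ^ (X ^ 5) := by
        refine Nat.pow_le_pow_right (by norm_num) ?_
        have h6 : X + 2 ≤ X * X := by nlinarith
        calc X * ((X + 2) * X) ≤ X * ((X * X) * X) := by gcongr
          _ = X ^ 4 := by ring
          _ ≤ X ^ 5 := Nat.pow_le_pow_right (by omega) (by norm_num)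

lemma card_avoids {G : (Fin 2 → ℕ) → Prop} {m w X U : ℕ} (hX : 2 ≤ X) (A : Finset (Finset ℕ))
    (hA : ∀ h ∈ A, h ⊆ range X ∧ Avoids G m w X U (fun x => x ∈ h)) : A.card ≤ X ^ m := by
  classical
  refine card_le_pow_of_not_shatters hX A (fun h hh => (hA h hh).1) (fun s hs hsm hsh => ?_)
  set e := s.equivFinOfCardEq hsm with he
  set a : ℕ → ℕ := fun j => if hj : j < m then (e.symm ⟨j, hj⟩ : ℕ) else 0 with ha
  have hamem : ∀ j < m, a j ∈ s := by
    intro j hj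
    simp only [ha, dif_pos hj]
    exact (e.symm ⟨j, hj⟩).2
  have hainj : ∀ i < m, ∀ j < m, a i = a j → i = j := by
    intro i hi j hj hij
    simp only [ha, dif_pos hi, dif_pos hj] at hij
    have := e.symm.injective (Subtype.ext hij)
    simpa using this
  obtain ⟨q, hq, hqa⟩ := exists_beta m X a (fun j hj => mem_range.1 (hs (hamem j hj)))
  obtain ⟨h, hhA, hht⟩ := hsh (t := s.filter (fun x => ∃ j < m, a j = x ∧
    G ![j, Nat.pair q (Nat.pair w (Nat.pair X U))])) (Finset.filter_subset _ _)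
  obtain ⟨j, hj, hne⟩ := (hA h hhA).2 q hq (fun j hj => by
    rw [hqa j hj]; exact mem_range.1 (hs (hamem j hj)))
  apply hne
  rw [hqa j hj]
  have h1 : a j ∈ h ↔ a j ∈ s ∩ h := by
    rw [mem_inter]
    exact ⟨fun h => ⟨hamem j hj, h⟩, fun h => h.2⟩
  show a j ∈ h ↔ _
  rw [h1, hht, mem_filter]
  constructor
  · rintro ⟨_, j', hj', e', hG⟩
    rwa [hainj j' hj' j hj e'] at hG
  · intro hG
    exact ⟨hamem j hj, j, hj, rfl, hG⟩

theorem lemmaL {n : ℕ} (hn : 1 ≤ n) (hstar : Star n) {k : ℕ} (hk : 1 ≤ k) {f : ℕ → ℕ → Prop}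
    (hf : InA (k + 1) f) : InA k f := by
  classical
  obtain ⟨Φ, hΦ, c, r, X0, hf⟩ := hf
  set Γ : (Fin 3 → ℕ) → Prop := fun v => Φ ![Nat.beta (Nat.unpair (v 0)).1 (v 2),
    (Nat.unpair (Nat.unpair (v 0)).2).1, (Nat.unpair (Nat.unpair (Nat.unpair (v 0)).2).2).1, v 1]
    with hΓdef
  have hΓ : D Γ := D.comp4 hΦ (F0.beta (F0.fst (F0.var _)) (F0.var _))
    (F0.fst (F0.snd (F0.var _))) (F0.fst (F0.snd (F0.snd (F0.var _)))) (F0.var _)
  obtain ⟨m, G, hG, hmG⟩ := hstar Γ hΓ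
  refine ⟨PhiL G m k r, D.PhiL hG m k r, 2 * (c + 2 * m + 20), r + 7, X0 + 2, fun X hXX => ?_⟩
  have hX : 2 ≤ X := by omega
  obtain ⟨w, hw, hfw⟩ := hf X (by omega)
  have hX0 : 0 < X := by omega
  set d := Lc X with hd
  have hd0 : 0 < d := Lc_pos X
  have hdd : ∀ i, 1 ≤ i → i ≤ X → i ∣ d := fun i h1 h2 => dvd_Lc h1 h2
  set u := B k (X ^ r) with hu
  set h0 : Finset ℕ := (range X).filter (fun x => f x X) with hh0
  have hh0X : h0 ⊆ range X := Finset.filter_subset _ _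
  have hav0 : Avoids G m w X (u ^ 2) (fun x => x ∈ h0) := by
    intro s hs hb
    set v := Nat.pair s (Nat.pair w (Nat.pair X (u ^ 2))) with hv
    obtain ⟨j, hj, hne⟩ := hmG v
    refine ⟨j, hj, fun e => hne ?_⟩
    rw [← e]
    have hy : B (k + 1) (X ^ r) ≤ 2 ^ (v ^ n) := by
      have h1 : B (k + 1) (X ^ r) ≤ 2 ^ (u * u) := Lc_le_two_pow u
      refine h1.trans (Nat.pow_le_pow_right (by norm_num) ?_)
      have h2 : u * u ≤ v := by
        rw [← pow_two]
        exact (Nat.right_le_pair _ _).trans ((Nat.right_le_pair _ _).trans (Nat.right_le_pair _ _))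
      refine h2.trans ?_
      rcases Nat.eq_zero_or_pos v with h3 | h3
      · rw [h3]; exact Nat.zero_le _
      · exact Nat.le_self_pow (by omega) v
    have h2 := hfw _ hy (Nat.beta s j) (hb j hj)
    simp only [hΓdef, Matrix.cons_val_zero, Matrix.cons_val_one, Matrix.cons_val]
    rw [hv, Nat.unpair_pair, Nat.unpair_pair, Nat.unpair_pair]
    simp only
    rw [← h2]
    simp [hh0, hb j hj]
  set T : Finset (Finset ℕ) :=
    (range X).powerset.filter (fun h => Avoids G m w X (u ^ 2) (fun x => x ∈ h)) with hT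
  have hTcard : T.card ≤ X ^ m := card_avoids hX T (fun h hh => by
    rw [hT, mem_filter, mem_powerset] at hh
    exact hh)
  have h0T : h0 ∈ T := by
    rw [hT, mem_filter, mem_powerset]
    exact ⟨hh0X, hav0⟩
  set S : Finset ℕ := T.image (code d) with hS
  have hScard : S.card ≤ X ^ m := (Finset.card_image_le).trans hTcard
  have hpow : ∀ a b : ℕ, X ^ (a + b) = X ^ a * X ^ b := fun a b => pow_add X a b
  have hX2 : 4 ≤ X ^ 2 := by nlinarith
  have hSle : ∀ c ∈ S, c ≤ 2 ^ (X ^ 5) := by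
    intro c hc
    rw [hS, mem_image] at hc
    obtain ⟨h, hh, rfl⟩ := hc
    rw [hT, mem_filter, mem_powerset] at hh
    exact code_le_two_pow hX hh.1
  have hone : ∀ a : ℕ, 1 ≤ X ^ a := fun a => Nat.one_le_pow _ _ hX0
  have hN : 2 ^ (X ^ 5 * S.card) < Lc (X ^ (m + 7)) := by
    have h1 : X ^ 5 * S.card ≤ X ^ (m + 5) := by
      rw [pow_add, mul_comm]
      exact Nat.mul_le_mul_right _ hScard
    have h2 : 2 ^ (X ^ (m + 5) + 1) ≤ Lc (X ^ (m + 7)) := by
      apply two_pow_le_Lc'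
      have h3 : X ^ (m + 7) = X ^ (m + 5) * X ^ 2 := hpow (m + 5) 2
      have h4 := hone (m + 5)
      nlinarith
    refine lt_of_lt_of_le ?_ h2
    exact Nat.pow_lt_pow_right (by norm_num) (by omega)
  obtain ⟨p, hp1, hpN, hp⟩ := exists_hash S hSle (code d h0) (mem_image_of_mem _ h0T) hN
  set ρ := code d h0 % p with hρ
  have hρp : ρ < p := Nat.mod_lt _ (by omega)
  refine ⟨Nat.pair w (Nat.pair p ρ), ?_, fun y hy x hx => ?_⟩
  · have h1 : Nat.pair p ρ < X ^ (2 * (m + 9)) := by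
      refine lt_of_lt_of_le (pair_lt p ρ) ?_
      rw [mul_comm 2, pow_mul]
      refine Nat.pow_le_pow_left ?_ 2
      have h3 : X ^ (m + 9) = X ^ (m + 7) * X ^ 2 := hpow (m + 7) 2
      have h4 := hone (m + 7)
      nlinarith
    refine lt_of_lt_of_le (pair_lt w _) ?_
    rw [mul_comm 2, pow_mul]
    refine Nat.pow_le_pow_left ?_ 2
    have h5 : X ^ c ≤ X ^ (c + 2 * (m + 9)) := Nat.pow_le_pow_right hX0 (by omega)
    have h6 : X ^ (2 * (m + 9)) ≤ X ^ (c + 2 * (m + 9)) := Nat.pow_le_pow_right hX0 (by omega)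
    have h7 : X ^ (c + 2 * m + 20) = X ^ (c + 2 * (m + 9)) * X ^ 2 := by
      rw [← hpow]; congr 1
    nlinarith
  · have hB1 : ∀ Z, Lc Z ≤ B k Z := fun Z => B_mono_left (k := 1) hk Z
    have hyL : Lc (X ^ (r + 7)) ≤ y := (hB1 _).trans hy
    have hdy : d ≤ y := (Lc_mono (by
      have := hone (r + 6)
      have h8 : X ^ (r + 7) = X ^ (r + 6) * X := pow_succ _ _
      nlinarith)).trans hyL
    have huy : u ≤ y := (B_mono k (Nat.pow_le_pow_right hX0 (by omega))).trans hy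
    have hcy : code d h0 ≤ y := by
      refine (code_le_two_pow hX hh0X).trans (le_trans ?_ hyL)
      apply two_pow_le_Lc'
      have h8 : X ^ (r + 7) = X ^ 5 * X ^ (r + 2) := by rw [← hpow]; congr 1; ring
      have h9 : 2 ≤ X ^ (r + 2) := by
        have : X ^ (r + 2) = X ^ (r + 1) * X := pow_succ _ _
        have := hone (r + 1)
        nlinarith
      have := hone 5
      rw [h8]
      nlinarith
    unfold PhiL
    simp only [Matrix.cons_val_zero, Matrix.cons_val_one, Matrix.cons_val]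
    rw [Nat.unpair_pair, Nat.unpair_pair]
    simp only
    have hcan := (canonical_iff hdd hd0 h0 hh0X (c := code d h0)).2 rfl
    constructor
    · intro hfx
      refine ⟨d, hdy, u, huy, rfl, rfl, code d h0, hcy, ⟨hcan.1, hcan.2.2⟩, rfl, ?_, ?_⟩
      · exact hav0.congr (fun x hx => (hcan.2.1 x hx).symm)
      · rw [hcan.2.1 x hx]
        simp [hh0, hx, hfx]
    · rintro ⟨d', _, u', _, rfl, rfl, c', _, ⟨hc0, hcmin⟩, hcmod, hcav, hbit⟩
      set h1 : Finset ℕ := (range X).filter (fun x => bit c' d x) with hh1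
      have hh1X : h1 ⊆ range X := Finset.filter_subset _ _
      have hb1 : ∀ x < X, (bit c' d x ↔ x ∈ h1) := fun x hx => by simp [hh1, hx]
      have hc1 : c' = code d h1 := (canonical_iff hdd hd0 h1 hh1X).1 ⟨hc0, hb1, hcmin⟩
      have h1T : h1 ∈ T := by
        rw [hT, mem_filter, mem_powerset]
        exact ⟨hh1X, hcav.congr hb1⟩
      have h2 : code d h1 = code d h0 :=
        hp _ (mem_image_of_mem _ h1T) (by rw [← hc1, hcmod])
      have h3 : h1 = h0 := code_inj hdd hd0 hh1X hh0X h2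
      have h4 : x ∈ h0 := by
        rw [← h3]
        exact (hb1 x hx).1 hbit
      simpa [hh0, hx] using h4

end Pool.Agent.LIO
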