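import Pool.Agent.MP_eae0ed_lc.Contra
import Pool.Agent.MP_eae0ed_lc.Exp

set_option autoImplicit false
set_option linter.unusedVariables false

open FirstOrder Filter

namespace Pool.Agent.LIO

lemma Delta0.D {k : ℕ} (θ : Delta0 k) : D (fun v : Fin k → ℕ => θ.1.Realize v) := by
  obtain ⟨ψ, h1, h2⟩ := θ.2.subst (β := Empty) (n := k)
    (fun i => Language.Term.var (Sum.inr i)) (fun i => i.elim0)
  refine ⟨ψ, h1, fun v => ?_⟩
  rw [h2]
  unfold Language.Formula.Realize
  apply iff_of_eq
  congr 1
  exact Subsingleton.elim _ _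

lemma D.formula {k : ℕ} {P : (Fin k → ℕ) → Prop} (hP : D P) :
    ∃ Γ : arith.Formula (Fin k), IsDelta0 Γ ∧ ∀ v : Fin k → ℕ, Γ.Realize v ↔ P v := by
  obtain ⟨φ, h1, h2⟩ := hP
  obtain ⟨ψ, h3, h4⟩ := h1.subst (β := Fin k) (n := 0) (fun a => a.elim)
    (fun i => Language.Term.var (Sum.inl i))
  refine ⟨ψ, h3, fun v => ?_⟩
  rw [← h2]
  unfold Language.Formula.Realize
  rw [h4]
  apply iff_of_eq
  congr 1
  exact Subsingleton.elim _ _

/-! ### Ultrapowers of `ℕ` -/

section Ultra

variable {ι : Type} (U : Ultrafilter ι)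

/-- the ultrapower of `ℕ` -/
abbrev UP : Type := (U : Filter ι).Product (fun _ => ℕ)

variable {U}

/-- the class of a function -/
def cl (f : ι → ℕ) : UP U := (f : (U : Filter ι).Product (fun _ => ℕ))

lemma cl_surj (a : UP U) : ∃ f : ι → ℕ, a = cl f := by
  induction a using Quotient.ind with
  | _ f => exact ⟨f, rfl⟩

lemma cl_eq_iff (f g : ι → ℕ) : (cl f : UP U) = cl g ↔ ∀ᶠ i in U, f i = g i :=
  Quotient.eq''

lemma realize_cl {k : ℕ} (φ : arith.Formula (Fin k)) (x : Fin k → ι → ℕ) :
    φ.Realize (fun j => (cl (x j) : UP U)) ↔ ∀ᶠ i in U, φ.Realize (fun j => x j i) :=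
  Language.Ultraproduct.realize_formula_cast φ x

lemma zeroM_cl : zeroM (UP U) = cl (fun _ => 0) := by
  have h := Language.Ultraproduct.funMap_cast (L := arith) (M := fun _ : ι => ℕ) (u := U)
    (n := 0) ArithFunc.zero ![]
  have e : (fun i : Fin 0 => ((![] : Fin 0 → (a : ι) → ℕ) i : (U : Filter ι).Product (fun _ => ℕ)))
      = ![] := Subsingleton.elim _ _
  rw [e] at h
  exact h

lemma oneM_cl : oneM (UP U) = cl (fun _ => 1) := by
  have h := Language.Ultraproduct.funMap_cast (L := arith) (M := fun _ : ι => ℕ) (u := U)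
    (n := 0) ArithFunc.one ![]
  have e : (fun i : Fin 0 => ((![] : Fin 0 → (a : ι) → ℕ) i : (U : Filter ι).Product (fun _ => ℕ)))
      = ![] := Subsingleton.elim _ _
  rw [e] at h
  exact h

lemma addM_cl (f g : ι → ℕ) : addM (cl f : UP U) (cl g) = cl (fun i => f i + g i) := by
  have h := Language.Ultraproduct.funMap_cast (L := arith) (M := fun _ : ι => ℕ) (u := U)
    (n := 2) ArithFunc.add ![f, g]
  have e : (fun i : Fin 2 => ((![f, g] : Fin 2 → (a : ι) → ℕ) i :
      (U : Filter ι).Product (fun _ => ℕ))) = ![cl f, cl g] := by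
    funext i
    fin_cases i <;> rfl
  rw [e] at h
  exact h

lemma mulM_cl (f g : ι → ℕ) : mulM (cl f : UP U) (cl g) = cl (fun i => f i * g i) := by
  have h := Language.Ultraproduct.funMap_cast (L := arith) (M := fun _ : ι => ℕ) (u := U)
    (n := 2) ArithFunc.mul ![f, g]
  have e : (fun i : Fin 2 => ((![f, g] : Fin 2 → (a : ι) → ℕ) i :
      (U : Filter ι).Product (fun _ => ℕ))) = ![cl f, cl g] := by
    funext i
    fin_cases i <;> rfl
  rw [e] at h
  exact h

lemma ltM_cl (f g : ι → ℕ) : ltM (cl f : UP U) (cl g) ↔ ∀ᶠ i in U, f i < g i := by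
  have h := realize_cl (U := U) (k := 2) (ltF (Language.Term.var (Sum.inl 0))
    (Language.Term.var (Sum.inl 1))) ![f, g]
  unfold Language.Formula.Realize at h
  rw [realize_ltF] at h
  simp only [realize_ltF] at h
  exact h

lemma powM_cl (f : ι → ℕ) (k : ℕ) : powM (cl f : UP U) k = cl (fun i => f i ^ k) := by
  induction k with
  | zero => simpa [powM] using oneM_cl
  | succ k ih =>
    simp only [powM, ih, mulM_cl, pow_succ]

lemma numM_cl (k : ℕ) : numM (UP U) k = cl (fun _ => k) := by
  induction k with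
  | zero => exact zeroM_cl
  | succ k ih => rw [numM, ih, oneM_cl, addM_cl]

lemma UP_equiv : arith.ElementarilyEquivalent ℕ (UP U) := by
  rw [Language.elementarilyEquivalent_iff]
  intro φ
  have h := Language.Ultraproduct.sentence_realize (M := fun _ : ι => ℕ) (u := U) φ
  rw [h]
  simp

lemma UP_models : ModelsIDelta0 (UP U) where
  add_assoc a b c := by
    obtain ⟨f, rfl⟩ := cl_surj a
    obtain ⟨g, rfl⟩ := cl_surj b
    obtain ⟨h, rfl⟩ := cl_surj c
    simp only [addM_cl, Nat.add_assoc]
  add_comm a b := by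
    obtain ⟨f, rfl⟩ := cl_surj a
    obtain ⟨g, rfl⟩ := cl_surj b
    simp only [addM_cl, Nat.add_comm]
  mul_assoc a b c := by
    obtain ⟨f, rfl⟩ := cl_surj a
    obtain ⟨g, rfl⟩ := cl_surj b
    obtain ⟨h, rfl⟩ := cl_surj c
    simp only [mulM_cl, Nat.mul_assoc]
  mul_comm a b := by
    obtain ⟨f, rfl⟩ := cl_surj a
    obtain ⟨g, rfl⟩ := cl_surj b
    simp only [mulM_cl, Nat.mul_comm]
  mul_add a b c := by
    obtain ⟨f, rfl⟩ := cl_surj a
    obtain ⟨g, rfl⟩ := cl_surj b
    obtain ⟨h, rfl⟩ := cl_surj c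
    simp only [mulM_cl, addM_cl, Nat.mul_add]
  add_zero a := by
    obtain ⟨f, rfl⟩ := cl_surj a
    simp only [zeroM_cl, addM_cl, Nat.add_zero]
  mul_zero a := by
    obtain ⟨f, rfl⟩ := cl_surj a
    simp only [zeroM_cl, mulM_cl, Nat.mul_zero]
  mul_one a := by
    obtain ⟨f, rfl⟩ := cl_surj a
    simp only [oneM_cl, mulM_cl, Nat.mul_one]
  lt_irrefl a := by
    obtain ⟨f, rfl⟩ := cl_surj a
    rw [ltM_cl]
    intro h
    obtain ⟨i, hi⟩ := h.exists
    exact Nat.lt_irrefl _ hi
  lt_trans a b c := by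
    obtain ⟨f, rfl⟩ := cl_surj a
    obtain ⟨g, rfl⟩ := cl_surj b
    obtain ⟨h, rfl⟩ := cl_surj c
    simp only [ltM_cl]
    intro h1 h2
    filter_upwards [h1, h2] with i h1 h2 using h1.trans h2
  lt_total a b := by
    obtain ⟨f, rfl⟩ := cl_surj a
    obtain ⟨g, rfl⟩ := cl_surj b
    simp only [ltM_cl, cl_eq_iff]
    rw [← Ultrafilter.eventually_or, ← Ultrafilter.eventually_or]
    exact Eventually.of_forall (fun i => lt_trichotomy _ _)
  add_lt_add a b c := by
    obtain ⟨f, rfl⟩ := cl_surj a
    obtain ⟨g, rfl⟩ := cl_surj b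
    obtain ⟨h, rfl⟩ := cl_surj c
    simp only [ltM_cl, addM_cl]
    intro h1
    filter_upwards [h1] with i h1 using Nat.add_lt_add_right h1 _
  mul_lt_mul a b c := by
    obtain ⟨f, rfl⟩ := cl_surj a
    obtain ⟨g, rfl⟩ := cl_surj b
    obtain ⟨h, rfl⟩ := cl_surj c
    simp only [ltM_cl, mulM_cl, zeroM_cl]
    intro h1 h2
    filter_upwards [h1, h2] with i h1 h2 using Nat.mul_lt_mul_of_pos_right h2 h1
  exists_add a b := by
    obtain ⟨f, rfl⟩ := cl_surj a
    obtain ⟨g, rfl⟩ := cl_surj b
    simp only [ltM_cl]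
    intro h1
    refine ⟨cl (fun i => g i - f i), ?_⟩
    rw [addM_cl, cl_eq_iff]
    filter_upwards [h1] with i h1
    omega
  zero_lt_one := by
    rw [zeroM_cl, oneM_cl, ltM_cl]
    simp
  one_le_of_pos a := by
    obtain ⟨f, rfl⟩ := cl_surj a
    simp only [ltM_cl, zeroM_cl, oneM_cl, cl_eq_iff]
    intro h
    rw [← Ultrafilter.eventually_or]
    filter_upwards [h] with i h
    omega
  zero_le a := by
    obtain ⟨f, rfl⟩ := cl_surj a
    simp only [ltM_cl, zeroM_cl, cl_eq_iff]
    rw [← Ultrafilter.eventually_or]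
    exact Eventually.of_forall (fun i => by omega)
  induction k φ _ p h0 hs x := by
    classical
    choose q hq using fun i => cl_surj (p i)
    obtain ⟨g, rfl⟩ := cl_surj x
    have hp : p = fun i => cl (q i) := funext hq
    subst hp
    have key : ∀ f : ι → ℕ, (φ.Realize (Fin.cons (cl f) (fun i => cl (q i)) : Fin (k + 1) → UP U) ↔
        ∀ᶠ i in U, φ.Realize (Fin.cons (f i) (fun j => q j i) : Fin (k + 1) → ℕ)) := by
      intro f
      have h := realize_cl (U := U) φ (Fin.cons f q : Fin (k + 1) → ι → ℕ)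
      have e1 : (fun j => (cl ((Fin.cons f q : Fin (k + 1) → ι → ℕ) j) : UP U)) =
          (Fin.cons (cl f) (fun i => cl (q i)) : Fin (k + 1) → UP U) := by
        funext j
        refine Fin.cases ?_ (fun j => ?_) j <;> rfl
      have e2 : ∀ i, (fun j => (Fin.cons f q : Fin (k + 1) → ι → ℕ) j i) =
          (Fin.cons (f i) (fun j => q j i) : Fin (k + 1) → ℕ) := by
        intro i
        funext j
        refine Fin.cases ?_ (fun j => ?_) j <;> rfl
      rw [e1] at h
      simp only [e2] at h
      exact h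
    rw [key]
    by_contra hcon
    rw [← Ultrafilter.eventually_not] at hcon
    rw [zeroM_cl, key] at h0
    -- the last point where the formula holds
    set P : ι → ℕ → Prop := fun i z => φ.Realize (Fin.cons z (fun j => q j i) : Fin (k + 1) → ℕ)
      with hP
    set f : ι → ℕ := fun i => Nat.findGreatest (P i) (g i) with hf
    have h1 : ∀ᶠ i in U, P i (f i) := by
      filter_upwards [h0] with i h0
      exact Nat.findGreatest_spec (P := P i) (Nat.zero_le _) h0
    have h2 : ∀ᶠ i in U, ¬ P i (f i + 1) := by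
      filter_upwards [h1, hcon] with i h1 hcon hP1
      have hle : f i ≤ g i := Nat.findGreatest_le _
      rcases lt_or_eq_of_le hle with hlt | heq
      · exact Nat.findGreatest_is_greatest (P := P i) (n := g i) (k := f i + 1)
          (Nat.lt_succ_self _) hlt hP1
      · rw [heq] at h1
        exact hcon h1
    have h3 := hs (cl f) ((key f).2 h1)
    rw [oneM_cl, addM_cl, key] at h3
    obtain ⟨i, hi1, hi2⟩ := (h2.and h3).exists
    exact hi1 hi2

end Ultra

theorem main (code : Delta0 1 → ℕ) (hcode : Function.Injective code) (n : ℕ) (hn : 1 ≤ n) :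
    ∃ (M : Type) (_ : arith.Structure M), arith.ElementarilyEquivalent ℕ M ∧ ModelsIDelta0 M ∧
      ∃ a y : M, IsTwoPow (powM a n) y ∧
        ∃ Γ : Delta0 3, ∀ θ : Delta0 1,
          (Γ.1.Realize ![a, y, numM M (code θ)] ↔ θ.1.Realize ![a]) := by
  classical
  obtain ⟨E0, hE0, hE0'⟩ := D.exp.formula
  have hE0def : DefinesExp E0 := fun x z => by rw [hE0']; simp
  by_contra hcon
  apply not_star hn
  intro Γ hΓ
  obtain ⟨Γ', hΓ', hΓ''⟩ := hΓ.formula
  -- compactness
  have hT : ∃ T : Finset (Delta0 1), ∀ v : ℕ, ∃ θ ∈ T,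
      ¬ (Γ'.Realize ![v, 2 ^ (v ^ n), code θ] ↔ θ.1.Realize ![v]) := by
    by_contra hT
    push Not at hT
    choose a ha using hT
    apply hcon
    set U : Ultrafilter (Finset (Delta0 1)) := Ultrafilter.of atTop with hU
    have hmem : ∀ θ : Delta0 1, ∀ᶠ T : Finset (Delta0 1) in (U : Filter (Finset (Delta0 1))),
        θ ∈ T := by
      intro θ
      have h1 : ∀ᶠ T : Finset (Delta0 1) in atTop, θ ∈ T := by
        filter_upwards [eventually_ge_atTop {θ}] with T hT
        exact Finset.singleton_subset_iff.1 hT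
      exact Filter.Eventually.filter_mono (Ultrafilter.of_le atTop) h1
    have hEall : ∀ E : arith.Formula (Fin 2), DefinesExp E →
        E.Realize (M := UP U) ![powM (cl a) n, cl (fun T => 2 ^ (a T ^ n))] := by
      intro E hE
      have h := realize_cl (U := U) E ![fun T => a T ^ n, fun T => 2 ^ (a T ^ n)]
      have e1 : (fun j => (cl ((![fun T => a T ^ n, fun T => 2 ^ (a T ^ n)] :
          Fin 2 → Finset (Delta0 1) → ℕ) j) : UP U)) =
          ![powM (cl a) n, cl (fun T => 2 ^ (a T ^ n))] := by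
        funext j
        fin_cases j
        · simp [powM_cl]
        · rfl
      rw [e1] at h
      rw [h]
      refine Eventually.of_forall (fun T => ?_)
      have e2 : (fun j => (![fun T => a T ^ n, fun T => 2 ^ (a T ^ n)] :
          Fin 2 → Finset (Delta0 1) → ℕ) j T) = ![a T ^ n, 2 ^ (a T ^ n)] := by
        funext j
        fin_cases j <;> rfl
      rw [e2, hE]
    refine ⟨UP U, inferInstance, UP_equiv, UP_models, cl a, cl (fun T => 2 ^ (a T ^ n)),
      ⟨⟨E0, hE0, hE0def, hEall E0 hE0def⟩, hEall⟩, ⟨Γ', hΓ'⟩, ?_⟩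
    · intro θ
      show Γ'.Realize _ ↔ _
      have h := realize_cl (U := U) Γ' ![a, fun T => 2 ^ (a T ^ n), fun _ => code θ]
      have e1 : (fun j => (cl ((![a, fun T => 2 ^ (a T ^ n), fun _ => code θ] :
          Fin 3 → Finset (Delta0 1) → ℕ) j) : UP U)) =
          ![cl a, cl (fun T => 2 ^ (a T ^ n)), numM (UP U) (code θ)] := by
        funext j
        fin_cases j
        · rfl
        · rfl
        · simp [numM_cl]
      rw [e1] at h
      have h' := realize_cl (U := U) θ.1 ![a]
      have e3 : (fun j => (cl ((![a] : Fin 1 → Finset (Delta0 1) → ℕ) j) : UP U)) = ![cl a] := by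
        funext j
        fin_cases j
        rfl
      rw [e3] at h'
      rw [h, h']
      have h4 : ∀ᶠ T in U, (Γ'.Realize (fun j => (![a, fun T => 2 ^ (a T ^ n), fun _ => code θ] :
          Fin 3 → Finset (Delta0 1) → ℕ) j T) ↔
          θ.1.Realize (fun j => (![a] : Fin 1 → Finset (Delta0 1) → ℕ) j T)) := by
        filter_upwards [hmem θ] with T hT
        have e4 : (fun j => (![a, fun T => 2 ^ (a T ^ n), fun _ => code θ] :
          Fin 3 → Finset (Delta0 1) → ℕ) j T) = ![a T, 2 ^ (a T ^ n), code θ] := by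
          funext j
          fin_cases j <;> rfl
        have e5 : (fun j => (![a] : Fin 1 → Finset (Delta0 1) → ℕ) j T) = ![a T] := by
          funext j
          fin_cases j
          rfl
        rw [e4, e5]
        exact ha T θ hT
      constructor
      · intro h5
        filter_upwards [h4, h5] with T h4 h5 using h4.1 h5
      · intro h5
        filter_upwards [h4, h5] with T h4 h5 using h4.2 h5
  obtain ⟨T, hT⟩ := hT
  refine ⟨T.sup code + 1, fun v => ∃ θ ∈ T, v 0 = code θ ∧ θ.1.Realize ![v 1], ?_, ?_⟩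
  · -- definability of the finite disjunction
    clear hT
    induction T using Finset.induction_on with
    | empty => exact D.false.congr (fun v => by simp)
    | insert θ T _ ih =>
      have h1 : D (fun v : Fin 2 → ℕ => v 0 = code θ ∧ θ.1.Realize ![v 1]) := by
        refine D.and (D.eq (F0.var _) (F0.const _)) ?_
        exact (D.comp θ.D (f := fun _ v => v 1) (fun _ => TT.var _)).congr (fun v => by
          apply iff_of_eq
          congr 1
          funext i
          fin_cases i
          rfl)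
      refine (D.or h1 ih).congr (fun v => ?_)
      simp only [Finset.mem_insert, exists_eq_or_imp]
  · intro v
    obtain ⟨θ, hθ, hne⟩ := hT v
    refine ⟨code θ, Nat.lt_succ_of_le (Finset.le_sup (f := code) hθ), fun h => hne ?_⟩
    rw [hΓ'', h]
    constructor
    · rintro ⟨θ', _, h1, h2⟩
      have : θ = θ' := hcode (by simpa using h1)
      subst this
      simpa using h2
    · intro h1
      exact ⟨θ, hθ, by simp, by simpa using h1⟩

end Pool.Agent.LIO
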