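import Pool.Agent.MP_eae0ed_lc.LemmaL

set_option autoImplicit false
set_option linter.unusedVariables false

open FirstOrder

namespace Pool.Agent.LIO

open Function

/-! ### Relational formulas over an initial segment -/

/-- formulas over the finite structure `[0, V)` with the graphs of `+` and `*` -/
inductive Fm : Type
  | add (i j k : ℕ) : Fm
  | mul (i j k : ℕ) : Fm
  | imp (φ ψ : Fm) : Fm
  | all (i : ℕ) (φ : Fm) : Fm

def Fm.ev (V : ℕ) : Fm → (ℕ → ℕ) → Prop
  | Fm.add i j k, v => v i + v j = v k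
  | Fm.mul i j k, v => v i * v j = v k
  | Fm.imp φ ψ, v => φ.ev V v → ψ.ev V v
  | Fm.all i φ, v => ∀ z < V, φ.ev V (update v i z)

def Fm.vb : Fm → ℕ
  | Fm.add i j k => i + j + k + 1
  | Fm.mul i j k => i + j + k + 1
  | Fm.imp φ ψ => φ.vb + ψ.vb
  | Fm.all i φ => i + 1 + φ.vb

def Fm.code : Fm → ℕ
  | Fm.add i j k => Nat.pair 0 (Nat.pair i (Nat.pair j k))
  | Fm.mul i j k => Nat.pair 1 (Nat.pair i (Nat.pair j k))
  | Fm.imp φ ψ => Nat.pair 2 (Nat.pair φ.code (Nat.pair ψ.code 0))
  | Fm.all i φ => Nat.pair 3 (Nat.pair i (Nat.pair φ.code 0))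

lemma Fm.ev_congr (V : ℕ) (φ : Fm) : ∀ {v v' : ℕ → ℕ}, (∀ j < φ.vb, v j = v' j) →
    (φ.ev V v ↔ φ.ev V v') := by
  induction φ with
  | add i j k =>
    intro v v' h
    simp only [Fm.vb, Fm.ev] at *
    rw [h i (by omega), h j (by omega), h k (by omega)]
  | mul i j k =>
    intro v v' h
    simp only [Fm.vb, Fm.ev] at *
    rw [h i (by omega), h j (by omega), h k (by omega)]
  | imp φ ψ ih1 ih2 =>
    intro v v' h
    simp only [Fm.vb, Fm.ev] at *
    rw [ih1 (fun j hj => h j (by omega)), ih2 (fun j hj => h j (by omega))]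
  | all i φ ih =>
    intro v v' h
    simp only [Fm.vb, Fm.ev] at *
    refine forall_congr' fun z => imp_congr_right fun _ => ih (fun j hj => ?_)
    rcases eq_or_ne j i with rfl | hji
    · simp
    · rw [update_of_ne hji, update_of_ne hji]
      exact h j (by omega)

/-! ### Truth tables -/

lemma unpair_snd_lt {e : ℕ} (h : 0 < (Nat.unpair e).1) : (Nat.unpair e).2 < e := by
  have h1 := Nat.pair_unpair e
  set x := (Nat.unpair e).1
  set t := (Nat.unpair e).2
  rw [← h1]
  unfold Nat.pair
  split_ifs <;> nlinarith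

/-- one step of the recursion defining the truth table -/
def Clause (V K S : ℕ) (T : ℕ → ℕ → Prop) (e s : ℕ) : Prop :=
  ((Nat.unpair e).1 = 0 ∧
    Nat.beta s (Nat.unpair (Nat.unpair e).2).1 +
      Nat.beta s (Nat.unpair (Nat.unpair (Nat.unpair e).2).2).1 =
      Nat.beta s (Nat.unpair (Nat.unpair (Nat.unpair e).2).2).2) ∨
  ((Nat.unpair e).1 = 1 ∧
    Nat.beta s (Nat.unpair (Nat.unpair e).2).1 *
      Nat.beta s (Nat.unpair (Nat.unpair (Nat.unpair e).2).2).1 =
      Nat.beta s (Nat.unpair (Nat.unpair (Nat.unpair e).2).2).2) ∨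
  ((Nat.unpair e).1 = 2 ∧
    (T (Nat.unpair (Nat.unpair e).2).1 s →
      T (Nat.unpair (Nat.unpair (Nat.unpair e).2).2).1 s)) ∨
  ((Nat.unpair e).1 = 3 ∧ ∀ s' < S, (∀ j < K, Nat.beta s' j < V) →
    (∀ j < K, j ≠ (Nat.unpair (Nat.unpair e).2).1 → Nat.beta s' j = Nat.beta s j) →
    T (Nat.unpair (Nat.unpair (Nat.unpair e).2).2).1 s')

lemma sub_lt_a {e : ℕ} (h : 0 < (Nat.unpair e).1) : (Nat.unpair (Nat.unpair e).2).1 < e :=
  lt_of_le_of_lt (Nat.unpair_left_le _) (unpair_snd_lt h)

lemma sub_lt_b {e : ℕ} (h : 0 < (Nat.unpair e).1) :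
    (Nat.unpair (Nat.unpair (Nat.unpair e).2).2).1 < e :=
  lt_of_le_of_lt (Nat.unpair_left_le _)
    (lt_of_le_of_lt (Nat.unpair_right_le _) (unpair_snd_lt h))

/-- the truth table -/
def Tb (V K S : ℕ) (e : ℕ) : ℕ → Prop :=
  Nat.strongRec (motive := fun _ => ℕ → Prop)
    (fun e T s => Clause V K S (fun e' s' => ∃ h : e' < e, T e' h s') e s) e

lemma Tb_iff (V K S : ℕ) (e s : ℕ) : Tb V K S e s ↔ Clause V K S (Tb V K S) e s := by
  have h : Tb V K S e s = Clause V K S (fun e' s' => ∃ h : e' < e, Tb V K S e' s') e s := by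
    unfold Tb
    rw [Nat.strongRec_eq]
  rw [h]
  unfold Clause
  by_cases h0 : (Nat.unpair e).1 = 0
  · simp [h0]
  · have h0' : 0 < (Nat.unpair e).1 := Nat.pos_of_ne_zero h0
    have ha := sub_lt_a h0'
    have hb := sub_lt_b h0'
    simp [ha, hb]

lemma Clause.congr {V K S : ℕ} {T T' : ℕ → ℕ → Prop} {e : ℕ}
    (h : ∀ e' < e, ∀ s' < S, (T e' s' ↔ T' e' s')) {s : ℕ} (hs : s < S) :
    Clause V K S T e s ↔ Clause V K S T' e s := by
  unfold Clause
  by_cases h0 : (Nat.unpair e).1 = 0
  · simp [h0]
  · have h0' : 0 < (Nat.unpair e).1 := Nat.pos_of_ne_zero h0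
    have ha := sub_lt_a h0'
    have hb := sub_lt_b h0'
    rw [h _ ha s hs, h _ hb s hs]
    have h3 : ∀ s' < S, (T (Nat.unpair (Nat.unpair (Nat.unpair e).2).2).1 s' ↔
      T' (Nat.unpair (Nat.unpair (Nat.unpair e).2).2).1 s') := fun s' hs' => h _ hb s' hs'
    refine or_congr Iff.rfl (or_congr Iff.rfl (or_congr Iff.rfl (and_congr Iff.rfl ?_)))
    refine forall_congr' fun s' => forall_congr' fun hs' => ?_
    rw [h3 s' hs']

lemma table_unique {V K S E : ℕ} {T : ℕ → ℕ → Prop}
    (hT : ∀ e < E, ∀ s < S, (T e s ↔ Clause V K S T e s)) :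
    ∀ e < E, ∀ s < S, (T e s ↔ Tb V K S e s) := by
  intro e
  induction e using Nat.strong_induction_on with
  | _ e ih =>
    intro he s hs
    rw [hT e he s hs, Tb_iff]
    exact Clause.congr (fun e' he' s' hs' => ih e' he' (he'.trans he) s' hs') hs

lemma table_correct {V K S : ℕ}
    (hS : ∀ a : ℕ → ℕ, (∀ j < K, a j < V) → ∃ s < S, ∀ j < K, Nat.beta s j = a j) (φ : Fm) :
    φ.vb ≤ K → ∀ s, (∀ j < K, Nat.beta s j < V) →
      (Tb V K S φ.code s ↔ φ.ev V (Nat.beta s)) := by
  induction φ with
  | add i j k =>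
    intro hK s hs
    rw [Tb_iff]
    simp [Clause, Fm.code, Fm.ev]
  | mul i j k =>
    intro hK s hs
    rw [Tb_iff]
    simp [Clause, Fm.code, Fm.ev]
  | imp φ ψ ih1 ih2 =>
    intro hK s hs
    simp only [Fm.vb] at hK
    rw [Tb_iff]
    simp only [Clause, Fm.code, Fm.ev, Nat.unpair_pair]
    rw [ih1 (by omega) s hs, ih2 (by omega) s hs]
    simp
  | all i φ ih =>
    intro hK s hs
    simp only [Fm.vb] at hK
    rw [Tb_iff]
    simp only [Clause, Fm.code, Fm.ev, Nat.unpair_pair]
    have : ∀ P : Prop, ((3 = 0 ∧ Nat.beta s i + Nat.beta s φ.code = Nat.beta s 0) ∨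
      (3 = 1 ∧ Nat.beta s i * Nat.beta s φ.code = Nat.beta s 0) ∨
      (3 = 2 ∧ (Tb V K S i s → Tb V K S φ.code s)) ∨ (True ∧ P)) ↔ P := by
      intro P; simp
    rw [this]
    constructor
    · intro h z hz
      obtain ⟨s', hs', hb⟩ := hS (update (Nat.beta s) i z) (fun j hj => by
        rcases eq_or_ne j i with rfl | hji
        · simpa using hz
        · rw [update_of_ne hji]; exact hs j hj)
      have hval : ∀ j < K, Nat.beta s' j < V := fun j hj => by
        rw [hb j hj]
        rcases eq_or_ne j i with rfl | hji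
        · simpa using hz
        · rw [update_of_ne hji]; exact hs j hj
      have h1 := h s' hs' hval (fun j hj hji => by rw [hb j hj, update_of_ne hji])
      rw [ih (by omega) s' hval] at h1
      exact (Fm.ev_congr V φ (fun j hj => hb j (by omega))).1 h1
    · intro h s' hs' hval hagr
      rw [ih (by omega) s' hval]
      have h1 := h (Nat.beta s' i) (hval i (by omega))
      refine (Fm.ev_congr V φ (fun j hj => ?_)).1 h1
      rcases eq_or_ne j i with rfl | hji
      · simp
      · rw [update_of_ne hji]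
        exact (hagr j (by omega) hji).symm

/-! ### Representing `Δ₀` formulas -/

/-- a relation is represented by a relational formula on all large initial segments -/
def Rep {n : ℕ} (P : (Fin n → ℕ) → Prop) : Prop :=
  ∃ φ : Fm, ∃ q : ℕ, ∀ (M V : ℕ) (v : ℕ → ℕ), (∀ i < n, v i ≤ M) → (M + 2) ^ q ≤ V →
    (φ.ev V v ↔ P (fun i : Fin n => v i))

def Fm.bot : Fm := Fm.all 0 (Fm.add 0 0 0)

lemma Fm.ev_bot {V : ℕ} (hV : 2 ≤ V) (v : ℕ → ℕ) : ¬ Fm.bot.ev V v := by
  intro h
  have := h 1 (by omega)
  simp [Fm.ev] at this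

def Fm.neg (φ : Fm) : Fm := Fm.imp φ Fm.bot

lemma Fm.ev_neg {V : ℕ} (hV : 2 ≤ V) (φ : Fm) (v : ℕ → ℕ) : φ.neg.ev V v ↔ ¬ φ.ev V v := by
  constructor
  · intro h h'
    exact Fm.ev_bot hV v (h h')
  · intro h h'
    exact absurd h' h

/-- `x_i < x_j` -/
def Fm.less (i j k : ℕ) : Fm := (Fm.all k (Fm.imp (Fm.add i k j) (Fm.add k k k))).neg

lemma Fm.ev_less {V : ℕ} (hV : 2 ≤ V) {i j k : ℕ} (hik : i ≠ k) (hjk : j ≠ k) (v : ℕ → ℕ)
    (hj : v j < V) : (Fm.less i j k).ev V v ↔ v i < v j := by
  unfold Fm.less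
  rw [Fm.ev_neg hV]
  simp only [Fm.ev, update_self, update_of_ne hik, update_of_ne hjk]
  constructor
  · intro h
    by_contra hcon
    apply h
    intro z _ hz
    omega
  · intro h hcon
    have := hcon (v j - v i) (by omega) (by omega)
    omega

/-- `x_i = x_j` -/
def Fm.eq (i j k : ℕ) : Fm := Fm.all k (Fm.imp (Fm.add k k k) (Fm.add i k j))

lemma Fm.ev_eq {V : ℕ} (hV : 2 ≤ V) {i j k : ℕ} (hik : i ≠ k) (hjk : j ≠ k) (v : ℕ → ℕ) :
    (Fm.eq i j k).ev V v ↔ v i = v j := by
  unfold Fm.eq
  simp only [Fm.ev, update_self, update_of_ne hik, update_of_ne hjk]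
  constructor
  · intro h
    have := h 0 (by omega) rfl
    omega
  · intro h z _ hz
    omega

lemma term_bound {n : ℕ} (t : arith.Term (Empty ⊕ Fin n)) :
    ∃ q : ℕ, ∀ (M : ℕ) (v : Fin n → ℕ), (∀ i, v i ≤ M) →
      t.realize (Sum.elim default v) < (M + 2) ^ q := by
  induction t with
  | var a =>
    rcases a with a | a
    · exact a.elim
    · refine ⟨1, fun M v hv => ?_⟩
      have := hv a
      show v a < _
      rw [pow_one]
      omega
  | @func l F ts ih =>
    cases F with
    | zero => exact ⟨0, fun M v hv => Nat.one_pos⟩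
    | one => 
      refine ⟨1, fun M v hv => ?_⟩
      show 1 < _
      rw [pow_one]
      omega
    | add =>
      obtain ⟨q1, h1⟩ := ih 0
      obtain ⟨q2, h2⟩ := ih 1
      refine ⟨q1 + q2 + 1, fun M v hv => ?_⟩
      have e1 := h1 M v hv
      have e2 := h2 M v hv
      show (ts 0).realize _ + (ts 1).realize _ < _
      have a1 : (M + 2) ^ q1 ≤ (M + 2) ^ (q1 + q2) := Nat.pow_le_pow_right (by omega) (by omega)
      have a2 : (M + 2) ^ q2 ≤ (M + 2) ^ (q1 + q2) := Nat.pow_le_pow_right (by omega) (by omega)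
      have a3 : (M + 2) ^ (q1 + q2 + 1) = (M + 2) ^ (q1 + q2) * (M + 2) := pow_succ _ _
      nlinarith
    | mul =>
      obtain ⟨q1, h1⟩ := ih 0
      obtain ⟨q2, h2⟩ := ih 1
      refine ⟨q1 + q2, fun M v hv => ?_⟩
      have e1 := h1 M v hv
      have e2 := h2 M v hv
      show (ts 0).realize _ * (ts 1).realize _ < _
      rw [pow_add]
      exact Nat.mul_lt_mul'' e1 e2

lemma term_rep {n : ℕ} (t : arith.Term (Empty ⊕ Fin n)) :
    ∀ r, n ≤ r → ∃ φ : Fm, ∃ q : ℕ, ∀ (M V : ℕ) (v : ℕ → ℕ), (∀ i < n, v i ≤ M) →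
      (M + 2) ^ q ≤ V →
      (φ.ev V v ↔ v r = t.realize (Sum.elim default (fun i : Fin n => v i))) := by
  have hV2 : ∀ {M q V : ℕ}, (M + 2) ^ (q + 1) ≤ V → 2 ≤ V := by
    intro M q V h
    refine le_trans ?_ h
    rw [pow_succ]
    have : 1 ≤ (M + 2) ^ q := Nat.one_le_pow _ _ (by omega)
    nlinarith
  induction t with
  | var a =>
    rcases a with a | a
    · exact a.elim
    · intro r hr
      refine ⟨Fm.eq r a (r + 1), 0 + 1, fun M V v hv hV => ?_⟩
      rw [Fm.ev_eq (hV2 hV) (by omega) (by have := a.2; omega)]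
      rfl
  | @func l F ts ih =>
    cases F with
    | zero =>
      intro r hr
      refine ⟨Fm.add r r r, 0, fun M V v hv hV => ?_⟩
      show v r + v r = v r ↔ v r = 0
      omega
    | one =>
      intro r hr
      refine ⟨Fm.imp (Fm.imp (Fm.mul r r r) (Fm.add r r r)) Fm.bot, 0 + 1, fun M V v hv hV => ?_⟩
      have := Fm.ev_bot (hV2 hV) v
      show ((v r * v r = v r → v r + v r = v r) → Fm.bot.ev V v) ↔ v r = 1
      constructor
      · intro h
        by_contra hcon
        apply this
        apply h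
        intro h2
        rcases Nat.eq_zero_or_pos (v r) with h3 | h3
        · omega
        · have : v r = 1 := Nat.eq_of_mul_eq_mul_left h3 (by omega)
          exact absurd this hcon
      · intro h h2
        rw [h] at h2
        simp at h2
    | add =>
      intro r hr
      obtain ⟨φ, q1, h1⟩ := ih 0 (r + 1) (by omega)
      obtain ⟨ψ, q2, h2⟩ := ih 1 (r + 2) (by omega)
      obtain ⟨q3, h3⟩ := term_bound (ts 0)
      obtain ⟨q4, h4⟩ := term_bound (ts 1)
      refine ⟨Fm.all (r + 1) (Fm.imp φ (Fm.all (r + 2) (Fm.imp ψ (Fm.add (r + 1) (r + 2) r)))),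
        q1 + q2 + q3 + q4, fun M V v hv hV => ?_⟩
      have hq : ∀ q ≤ q1 + q2 + q3 + q4, (M + 2) ^ q ≤ V := fun q hq =>
        (Nat.pow_le_pow_right (by omega) hq).trans hV
      show (∀ z1 < V, φ.ev V (update v (r + 1) z1) → ∀ z2 < V,
        ψ.ev V (update (update v (r + 1) z1) (r + 2) z2) → _) ↔
        v r = (ts 0).realize _ + (ts 1).realize _
      have k1 : ∀ z1, (φ.ev V (update v (r + 1) z1) ↔
          z1 = (ts 0).realize (Sum.elim default (fun i : Fin n => v i))) := by
        intro z1
        rw [h1 M V (update v (r + 1) z1) (fun i hi => by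
          rw [update_of_ne (by omega)]; exact hv i hi) (hq _ (by omega))]
        rw [update_self]
        have : (fun i : Fin n => update v (r + 1) z1 i) = fun i : Fin n => v i := by
          funext i
          have := i.2
          rw [update_of_ne (by omega)]
        rw [this]
      have k2 : ∀ z1 z2, (ψ.ev V (update (update v (r + 1) z1) (r + 2) z2) ↔
          z2 = (ts 1).realize (Sum.elim default (fun i : Fin n => v i))) := by
        intro z1 z2
        rw [h2 M V _ (fun i hi => by
          rw [update_of_ne (by omega), update_of_ne (by omega)]; exact hv i hi) (hq _ (by omega))]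
        rw [update_self]
        have : (fun i : Fin n => update (update v (r + 1) z1) (r + 2) z2 i) =
            fun i : Fin n => v i := by
          funext i
          have := i.2
          rw [update_of_ne (by omega), update_of_ne (by omega)]
        rw [this]
      have b1 := (h3 M (fun i : Fin n => v i) (fun i => hv i i.2)).trans_le (hq _ (by omega))
      have b2 := (h4 M (fun i : Fin n => v i) (fun i => hv i i.2)).trans_le (hq _ (by omega))
      constructor
      · intro h
        have := h _ b1 ((k1 _).2 rfl) _ b2 ((k2 _ _).2 rfl)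
        simp only [Fm.ev] at this
        rw [update_self, update_of_ne (by omega), update_self, update_of_ne (by omega),
          update_of_ne (by omega)] at this
        exact this.symm
      · intro h z1 _ hz1 z2 _ hz2
        rw [k1] at hz1
        rw [k2] at hz2
        simp only [Fm.ev]
        rw [update_self, update_of_ne (by omega), update_self, update_of_ne (by omega),
          update_of_ne (by omega), hz1, hz2]
        exact h.symm
    | mul =>
      intro r hr
      obtain ⟨φ, q1, h1⟩ := ih 0 (r + 1) (by omega)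
      obtain ⟨ψ, q2, h2⟩ := ih 1 (r + 2) (by omega)
      obtain ⟨q3, h3⟩ := term_bound (ts 0)
      obtain ⟨q4, h4⟩ := term_bound (ts 1)
      refine ⟨Fm.all (r + 1) (Fm.imp φ (Fm.all (r + 2) (Fm.imp ψ (Fm.mul (r + 1) (r + 2) r)))),
        q1 + q2 + q3 + q4, fun M V v hv hV => ?_⟩
      have hq : ∀ q ≤ q1 + q2 + q3 + q4, (M + 2) ^ q ≤ V := fun q hq =>
        (Nat.pow_le_pow_right (by omega) hq).trans hV
      show (∀ z1 < V, φ.ev V (update v (r + 1) z1) → ∀ z2 < V,
        ψ.ev V (update (update v (r + 1) z1) (r + 2) z2) → _) ↔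
        v r = (ts 0).realize _ * (ts 1).realize _
      have k1 : ∀ z1, (φ.ev V (update v (r + 1) z1) ↔
          z1 = (ts 0).realize (Sum.elim default (fun i : Fin n => v i))) := by
        intro z1
        rw [h1 M V (update v (r + 1) z1) (fun i hi => by
          rw [update_of_ne (by omega)]; exact hv i hi) (hq _ (by omega))]
        rw [update_self]
        have : (fun i : Fin n => update v (r + 1) z1 i) = fun i : Fin n => v i := by
          funext i
          have := i.2
          rw [update_of_ne (by omega)]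
        rw [this]
      have k2 : ∀ z1 z2, (ψ.ev V (update (update v (r + 1) z1) (r + 2) z2) ↔
          z2 = (ts 1).realize (Sum.elim default (fun i : Fin n => v i))) := by
        intro z1 z2
        rw [h2 M V _ (fun i hi => by
          rw [update_of_ne (by omega), update_of_ne (by omega)]; exact hv i hi) (hq _ (by omega))]
        rw [update_self]
        have : (fun i : Fin n => update (update v (r + 1) z1) (r + 2) z2 i) =
            fun i : Fin n => v i := by
          funext i
          have := i.2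
          rw [update_of_ne (by omega), update_of_ne (by omega)]
        rw [this]
      have b1 := (h3 M (fun i : Fin n => v i) (fun i => hv i i.2)).trans_le (hq _ (by omega))
      have b2 := (h4 M (fun i : Fin n => v i) (fun i => hv i i.2)).trans_le (hq _ (by omega))
      constructor
      · intro h
        have := h _ b1 ((k1 _).2 rfl) _ b2 ((k2 _ _).2 rfl)
        simp only [Fm.ev] at this
        rw [update_self, update_of_ne (by omega), update_self, update_of_ne (by omega),
          update_of_ne (by omega)] at this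
        exact this.symm
      · intro h z1 _ hz1 z2 _ hz2
        rw [k1] at hz1
        rw [k2] at hz2
        simp only [Fm.ev]
        rw [update_self, update_of_ne (by omega), update_self, update_of_ne (by omega),
          update_of_ne (by omega), hz1, hz2]
        exact h.symm

lemma Rep.neg {n : ℕ} {P : (Fin n → ℕ) → Prop} (h : Rep P) : Rep (fun v => ¬ P v) := by
  obtain ⟨φ, q, h⟩ := h
  refine ⟨φ.neg, q + 1, fun M V v hv hV => ?_⟩
  have hV' : (M + 2) ^ q ≤ V := (Nat.pow_le_pow_right (by omega) (by omega)).trans hV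
  have hV2 : 2 ≤ V := by
    refine le_trans ?_ hV
    rw [pow_succ]
    have : 1 ≤ (M + 2) ^ q := Nat.one_le_pow _ _ (by omega)
    nlinarith
  rw [Fm.ev_neg hV2, h M V v hv hV']

lemma Rep.ball {n : ℕ} (t : arith.Term (Empty ⊕ Fin n)) {P : (Fin (n + 1) → ℕ) → Prop}
    (h : Rep P) : Rep (fun v : Fin n → ℕ => ∀ z < t.realize (Sum.elim default v),
      P (Fin.snoc v z)) := by
  obtain ⟨φ, q, h⟩ := h
  obtain ⟨ψ, q1, h1⟩ := term_rep t (n + 1) (by omega)
  obtain ⟨q2, h2⟩ := term_bound t
  refine ⟨Fm.all (n + 1) (Fm.imp ψ (Fm.all n (Fm.imp (Fm.less n (n + 1) (n + 2)) φ))),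
    q1 + q2 + (q2 + 2) * q + 1, fun M V v hv hV => ?_⟩
  have hq : ∀ q' ≤ q1 + q2 + (q2 + 2) * q + 1, (M + 2) ^ q' ≤ V := fun q hq =>
    (Nat.pow_le_pow_right (by omega) hq).trans hV
  have hV2 : 2 ≤ V := by
    have := hq 1 (by omega)
    rw [pow_one] at this
    omega
  set tv := t.realize (Sum.elim default (fun i : Fin n => v i)) with htv
  have b1 : tv < V := (h2 M (fun i : Fin n => v i) (fun i => hv i i.2)).trans_le (hq _ (by
    have : 0 ≤ (q2 + 2) * q := Nat.zero_le _
    omega))
  have b2 : tv < (M + 2) ^ q2 := h2 M (fun i : Fin n => v i) (fun i => hv i i.2)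
  show (∀ z1 < V, ψ.ev V (update v (n + 1) z1) → ∀ z2 < V,
      (Fm.less n (n + 1) (n + 2)).ev V (update (update v (n + 1) z1) n z2) →
        φ.ev V (update (update v (n + 1) z1) n z2)) ↔ _
  have k1 : ∀ z1, (ψ.ev V (update v (n + 1) z1) ↔ z1 = tv) := by
    intro z1
    rw [h1 M V (update v (n + 1) z1) (fun i hi => by
      rw [update_of_ne (by omega)]; exact hv i hi) (hq _ (by
        have : 0 ≤ (q2 + 2) * q := Nat.zero_le _
        omega))]
    rw [update_self]
    have : (fun i : Fin n => update v (n + 1) z1 i) = fun i : Fin n => v i := by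
      funext i
      have := i.2
      rw [update_of_ne (by omega)]
    rw [this]
  have k2 : ∀ z2 < tv, (φ.ev V (update (update v (n + 1) tv) n z2) ↔
      P (Fin.snoc (fun i : Fin n => v i) z2)) := by
    intro z2 hz2
    have hA : ∀ i < n + 1, update (update v (n + 1) tv) n z2 i ≤ M + (M + 2) ^ q2 := by
      intro i hi
      rcases eq_or_ne i n with hin | hin
      · rw [hin, update_self]
        omega
      · rw [update_of_ne hin, update_of_ne (by omega)]
        have := hv i (by omega)
        omega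
    have hB : (M + (M + 2) ^ q2 + 2) ^ q ≤ V := by
      refine le_trans ?_ (hq ((q2 + 2) * q) (by omega))
      rw [pow_mul]
      refine Nat.pow_le_pow_left ?_ q
      have e1 : (M + 2) ^ (q2 + 2) = (M + 2) ^ q2 * (M + 2) ^ 2 := pow_add _ _ _
      have e2 : 1 ≤ (M + 2) ^ q2 := Nat.one_le_pow _ _ (by omega)
      obtain ⟨A, hAe⟩ := Nat.exists_eq_add_of_le e2
      rw [e1, hAe]
      nlinarith [Nat.zero_le (A * M), Nat.zero_le (A * (M * M)), Nat.zero_le (M * M)]
    rw [h (M + (M + 2) ^ q2) V _ hA hB]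
    have : (fun i : Fin (n + 1) => update (update v (n + 1) tv) n z2 (i : ℕ)) =
        Fin.snoc (α := fun _ => ℕ) (fun i : Fin n => v i) z2 := by
      funext i
      refine Fin.lastCases ?_ (fun i => ?_) i
      · simp
      · simp only [Fin.snoc_castSucc, Fin.val_castSucc]
        have := i.2
        rw [update_of_ne (by omega), update_of_ne (by omega)]
    rw [this]
  have k3 : ∀ z2 < V, ((Fm.less n (n + 1) (n + 2)).ev V (update (update v (n + 1) tv) n z2) ↔
      z2 < tv) := by
    intro z2 hz2
    rw [Fm.ev_less hV2 (by omega) (by omega)]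
    · rw [update_self, update_of_ne (by omega), update_self]
    · rw [update_of_ne (by omega), update_self]
      exact b1
  constructor
  · intro h' z hz
    have hzV : z < V := by omega
    exact (k2 z hz).1 (h' tv b1 ((k1 _).2 rfl) z hzV ((k3 z hzV).2 hz))
  · intro h' z1 _ hz1 z2 hz2 hl
    rw [k1] at hz1
    subst hz1
    rw [k3 z2 hz2] at hl
    exact (k2 z2 hl).2 (h' z2 hl)

lemma rep_of_isDelta0 {n : ℕ} {φ : arith.BoundedFormula Empty n} (hφ : IsDelta0 φ) :
    Rep (fun v : Fin n → ℕ => φ.Realize default v) := by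
  induction hφ with
  | @falsum n =>
    refine ⟨Fm.bot, 1, fun M V v hv hV => ?_⟩
    rw [pow_one] at hV
    constructor
    · intro h
      exact absurd h (Fm.ev_bot (by omega) v)
    · intro h
      exact h.elim
  | @equal n s t =>
    obtain ⟨φ, q1, h1⟩ := term_rep s n le_rfl
    obtain ⟨ψ, q2, h2⟩ := term_rep t n le_rfl
    obtain ⟨q3, h3⟩ := term_bound s
    refine ⟨Fm.all n (Fm.imp φ ψ), q1 + q2 + q3, fun M V v hv hV => ?_⟩
    have hq : ∀ q' ≤ q1 + q2 + q3, (M + 2) ^ q' ≤ V := fun q hq =>
      (Nat.pow_le_pow_right (by omega) hq).trans hV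
    have b1 := (h3 M (fun i : Fin n => v i) (fun i => hv i i.2)).trans_le (hq _ (by omega))
    have e : ∀ z, (fun i : Fin n => update v n z i) = fun i : Fin n => v i := by
      intro z
      funext i
      have := i.2
      rw [update_of_ne (by omega)]
    have k1 : ∀ z, (φ.ev V (update v n z) ↔
        z = s.realize (Sum.elim default (fun i : Fin n => v i))) := by
      intro z
      rw [h1 M V (update v n z) (fun i hi => by
        rw [update_of_ne (by omega)]; exact hv i hi) (hq _ (by omega)), update_self, e]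
    have k2 : ∀ z, (ψ.ev V (update v n z) ↔
        z = t.realize (Sum.elim default (fun i : Fin n => v i))) := by
      intro z
      rw [h2 M V (update v n z) (fun i hi => by
        rw [update_of_ne (by omega)]; exact hv i hi) (hq _ (by omega)), update_self, e]
    show (∀ z < V, φ.ev V (update v n z) → ψ.ev V (update v n z)) ↔
      s.realize (Sum.elim default (fun i : Fin n => v i)) =
        t.realize (Sum.elim default (fun i : Fin n => v i))
    constructor
    · intro h
      exact (k2 _).1 (h _ b1 ((k1 _).2 rfl))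
    · intro h z _ hz
      rw [k1] at hz
      rw [k2, hz, h]
  | @less n s t =>
    obtain ⟨φ, q1, h1⟩ := term_rep s n le_rfl
    obtain ⟨ψ, q2, h2⟩ := term_rep t (n + 1) (by omega)
    obtain ⟨q3, h3⟩ := term_bound s
    obtain ⟨q4, h4⟩ := term_bound t
    refine ⟨Fm.all n (Fm.imp φ (Fm.all (n + 1) (Fm.imp ψ (Fm.less n (n + 1) (n + 2))))),
      q1 + q2 + q3 + q4 + 1, fun M V v hv hV => ?_⟩
    have hq : ∀ q' ≤ q1 + q2 + q3 + q4 + 1, (M + 2) ^ q' ≤ V := fun q hq =>
      (Nat.pow_le_pow_right (by omega) hq).trans hV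
    have hV2 : 2 ≤ V := by
      have := hq 1 (by omega)
      rw [pow_one] at this
      omega
    have b1 := (h3 M (fun i : Fin n => v i) (fun i => hv i i.2)).trans_le (hq _ (by omega))
    have b2 := (h4 M (fun i : Fin n => v i) (fun i => hv i i.2)).trans_le (hq _ (by omega))
    have e : ∀ z, (fun i : Fin n => update v n z i) = fun i : Fin n => v i := by
      intro z
      funext i
      have := i.2
      rw [update_of_ne (by omega)]
    have e' : ∀ z z', (fun i : Fin n => update (update v n z) (n + 1) z' i) =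
        fun i : Fin n => v i := by
      intro z z'
      funext i
      have := i.2
      rw [update_of_ne (by omega), update_of_ne (by omega)]
    have k1 : ∀ z, (φ.ev V (update v n z) ↔
        z = s.realize (Sum.elim default (fun i : Fin n => v i))) := by
      intro z
      rw [h1 M V (update v n z) (fun i hi => by
        rw [update_of_ne (by omega)]; exact hv i hi) (hq _ (by omega)), update_self, e]
    have k2 : ∀ z z', (ψ.ev V (update (update v n z) (n + 1) z') ↔
        z' = t.realize (Sum.elim default (fun i : Fin n => v i))) := by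
      intro z z'
      rw [h2 M V _ (fun i hi => by
        rw [update_of_ne (by omega), update_of_ne (by omega)]; exact hv i hi)
        (hq _ (by omega)), update_self, e']
    have k3 : ∀ z, ∀ z' < V, ((Fm.less n (n + 1) (n + 2)).ev V
        (update (update v n z) (n + 1) z') ↔ z < z') := by
      intro z z' hz'
      rw [Fm.ev_less hV2 (by omega) (by omega)]
      · rw [update_self, update_of_ne (by omega), update_self]
      · rw [update_self]
        exact hz'
    show (∀ z < V, φ.ev V (update v n z) → ∀ z' < V,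
      ψ.ev V (update (update v n z) (n + 1) z') →
        (Fm.less n (n + 1) (n + 2)).ev V (update (update v n z) (n + 1) z')) ↔
        (ltF s t).Realize default (fun i : Fin n => v i)
    rw [realize_ltF, ltM_nat]
    constructor
    · intro h
      exact (k3 _ _ b2).1 (h _ b1 ((k1 _).2 rfl) _ b2 ((k2 _ _).2 rfl))
    · intro h z _ hz z' hz' hzz
      rw [k1] at hz
      rw [k2] at hzz
      rw [k3 _ _ hz', hz, hzz]
      exact h
  | @imp n φ ψ _ _ ih1 ih2 =>
    obtain ⟨φ', q1, h1⟩ := ih1
    obtain ⟨ψ', q2, h2⟩ := ih2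
    refine ⟨Fm.imp φ' ψ', q1 + q2, fun M V v hv hV => ?_⟩
    have hq : ∀ q' ≤ q1 + q2, (M + 2) ^ q' ≤ V := fun q hq =>
      (Nat.pow_le_pow_right (by omega) hq).trans hV
    show (φ'.ev V v → ψ'.ev V v) ↔ (φ.imp ψ).Realize default (fun i : Fin n => v i)
    rw [h1 M V v hv (hq _ (by omega)), h2 M V v hv (hq _ (by omega)),
      Language.BoundedFormula.realize_imp]
  | @ball n t φ _ ih =>
    obtain ⟨φ', q, h⟩ := Rep.ball t ih
    refine ⟨φ', q, fun M V v hv hV => ?_⟩
    rw [h M V v hv hV]
    show _ ↔ ((ltF newVar (liftT t)).imp φ).all.Realize default (fun i : Fin n => v i)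
    rw [realize_ball]
    rfl
  | @bex n t φ _ ih =>
    obtain ⟨φ', q, h⟩ := Rep.neg (Rep.ball t (Rep.neg ih))
    refine ⟨φ', q, fun M V v hv hV => ?_⟩
    rw [h M V v hv hV]
    show _ ↔ (ltF newVar (liftT t) ⊓ φ).ex.Realize default (fun i : Fin n => v i)
    rw [realize_bex]
    push Not
    rfl

lemma D.rep {n : ℕ} {P : (Fin n → ℕ) → Prop} (h : D P) : Rep P := by
  obtain ⟨φ, h1, h2⟩ := h
  obtain ⟨φ', q, h3⟩ := rep_of_isDelta0 h1
  exact ⟨φ', q, fun M V v hv hV => (h3 M V v hv hV).trans (h2 _)⟩

end Pool.Agent.LIO
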